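import Pool.Agent.V11291.ME.Div

/-!
# Meromorphic functions in a half plane with finitely many zeros and poles in each sector
-/

set_option autoImplicit false

open Filter Topology Set Complex
open Pool.Agent.TH942.SL
open Pool.Agent.TH942.ES

namespace Pool.Agent.V11291.ME

/-- the function `H ∏ (s - β)^m` -/
noncomputable def dv (H : ℂ → ℂ) (Z : Finset ℂ) (m : ℂ → ℤ) (s : ℂ) : ℂ :=
  H s * ∏ β ∈ Z, (s - β) ^ m β

lemma dv_analytic {H : ℂ → ℂ} {Z : Finset ℂ} {m : ℂ → ℤ} {s : ℂ} (h : AnalyticAt ℂ H s)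
    (hs : s ∉ Z) : AnalyticAt ℂ (dv H Z m) s := by
  unfold dv
  refine h.mul (Finset.analyticAt_fun_prod _ fun β hβ => ?_)
  have h1 : s - β ≠ 0 := fun h2 => hs (by rwa [sub_eq_zero.1 h2])
  exact AnalyticAt.zpow (f := fun s : ℂ => s - β) (by fun_prop) h1

lemma dv_mero {H : ℂ → ℂ} {Z : Finset ℂ} {m : ℂ → ℤ} {s : ℂ} (h : AnalyticAt ℂ H s) :
    MeromorphicAt (dv H Z m) s := by
  unfold dv
  refine h.meromorphicAt.mul (MeromorphicAt.fun_prod fun β _ => ?_)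
  have h1 : MeromorphicAt (fun s : ℂ => s - β) s := by fun_prop
  exact h1.zpow _

lemma order_zero {f : ℂ → ℂ} {s : ℂ} (h : AnalyticAt ℂ f s) (h0 : f s ≠ 0) :
    meromorphicOrderAt f s = 0 := by
  rw [← tendsto_ne_zero_iff_meromorphicOrderAt_eq_zero h.meromorphicAt]
  exact ⟨f s, h0, h.continuousAt.tendsto.mono_left nhdsWithin_le_nhds⟩

lemma dv_ne {H : ℂ → ℂ} {Z : Finset ℂ} {m : ℂ → ℤ} {s : ℂ} (h : H s ≠ 0) (hs : s ∉ Z) :
    dv H Z m s ≠ 0 := by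
  unfold dv
  refine mul_ne_zero h (Finset.prod_ne_zero_iff.2 fun β hβ => zpow_ne_zero _ fun h2 => ?_)
  exact hs (by rwa [sub_eq_zero.1 h2])

lemma an_of {U : Set ℂ} (hU : IsOpen U) {H : ℂ → ℂ} (h : ∀ s ∈ U, DifferentiableAt ℂ H s) {s : ℂ}
    (hs : s ∈ U) : AnalyticAt ℂ H s := by
  have h1 : DifferentiableOn ℂ H U := fun z hz => (h z hz).differentiableWithinAt
  exact h1.analyticAt (hU.mem_nhds hs)

/-- two such functions which agree to the right of `1/2` -/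
lemma dv_agree {ρ : ℝ} (hρ : 1 < ρ) {H₁ H₂ : ℂ → ℂ} {Z₁ Z₂ : Finset ℂ} {m₁ m₂ : ℂ → ℤ}
    (h₁ : ∀ s ∈ Sect ρ, DifferentiableAt ℂ H₁ s) (h₂ : ∀ s ∈ Sect ρ, DifferentiableAt ℂ H₂ s)
    (h : ∀ s ∈ Sect ρ, 1 / 2 < s.re → dv H₁ Z₁ m₁ s = dv H₂ Z₂ m₂ s) :
    ∀ s ∈ Sect ρ, s ∉ Z₁ → s ∉ Z₂ → dv H₁ Z₁ m₁ s = dv H₂ Z₂ m₂ s := by
  intro s hs hs1 hs2
  have hm : MeromorphicOn (fun s => dv H₁ Z₁ m₁ s - dv H₂ Z₂ m₂ s) (Sect ρ) := fun z hz =>
    (dv_mero (an_of (sect_open hρ) h₁ hz)).sub (dv_mero (an_of (sect_open hρ) h₂ hz))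
  have hx : ((2 : ℝ) : ℂ) ∈ Sect ρ := sect_real hρ (by norm_num)
  have htop : meromorphicOrderAt (fun s => dv H₁ Z₁ m₁ s - dv H₂ Z₂ m₂ s) ((2 : ℝ) : ℂ) = ⊤ := by
    rw [meromorphicOrderAt_eq_top_iff]
    have ho : IsOpen {z : ℂ | 1 / 2 < z.re} := isOpen_lt continuous_const Complex.continuous_re
    refine Eventually.filter_mono nhdsWithin_le_nhds ?_
    filter_upwards [(sect_open hρ).mem_nhds hx, ho.mem_nhds (show 1 / 2 < ((2 : ℝ) : ℂ).re by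
      rw [Complex.ofReal_re]; norm_num)] with z hz1 hz2
    rw [h z hz1 hz2, sub_self]
  have hs3 : meromorphicOrderAt (fun s => dv H₁ Z₁ m₁ s - dv H₂ Z₂ m₂ s) s = ⊤ := by
    by_contra hne
    exact hm.meromorphicOrderAt_ne_top_of_isPreconnected (sect_convex hρ).isPreconnected hs hx hne
      htop
  rw [meromorphicOrderAt_eq_top_iff] at hs3
  have hc : ContinuousAt (fun s => dv H₁ Z₁ m₁ s - dv H₂ Z₂ m₂ s) s :=
    ((dv_analytic (an_of (sect_open hρ) h₁ hs) hs1).sub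
      (dv_analytic (an_of (sect_open hρ) h₂ hs) hs2)).continuousAt
  have h3 : Tendsto (fun s => dv H₁ Z₁ m₁ s - dv H₂ Z₂ m₂ s) (𝓝[≠] s)
      (𝓝 (dv H₁ Z₁ m₁ s - dv H₂ Z₂ m₂ s)) := hc.tendsto.mono_left nhdsWithin_le_nhds
  have h4 : Tendsto (fun s => dv H₁ Z₁ m₁ s - dv H₂ Z₂ m₂ s) (𝓝[≠] s) (𝓝 0) :=
    tendsto_const_nhds.congr' (hs3.mono fun z hz => hz.symm)
  exact sub_eq_zero.1 (tendsto_nhds_unique h3 h4)

/-- **gluing** -/
theorem glueM {L : ℂ → ℂ} (h : ∀ ρ : ℝ, 1 < ρ → ∃ (H : ℂ → ℂ) (Z : Finset ℂ) (m : ℂ → ℤ),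
      (∀ s ∈ Sect ρ, DifferentiableAt ℂ H s ∧ H s ≠ 0) ∧
      ∀ s ∈ Sect ρ, 1 / 2 < s.re → L s = H s * ∏ β ∈ Z, (s - β) ^ m β) :
    ∃ f : ℂ → ℂ, MeromorphicOn f {s : ℂ | 0 < s.re} ∧
      (∀ ρ : ℝ, 1 < ρ → {s : ℂ | s ∈ Sect ρ ∧ meromorphicOrderAt f s ≠ 0}.Finite) ∧
      ∀ s : ℂ, 1 / 2 < s.re → f s = L s := by
  classical
  set r : ℕ → ℝ := fun n => 1 + 1 / ((n : ℝ) + 1) with hr
  have hr1 : ∀ n, 1 < r n := fun n => by
    have : (0 : ℝ) < 1 / ((n : ℝ) + 1) := by positivity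
    rw [hr]
    simp only
    linarith
  have hrm : ∀ m n : ℕ, m ≤ n → r n ≤ r m := fun m n hmn => by
    have : (m : ℝ) ≤ n := by exact_mod_cast hmn
    rw [hr]
    simp only
    have h3 : 1 / ((n : ℝ) + 1) ≤ 1 / ((m : ℝ) + 1) := by
      apply one_div_le_one_div_of_le (by positivity)
      linarith
    linarith
  choose H Z m h1 h2 using fun n : ℕ => h (r n) (hr1 n)
  have hcomp : ∀ k n : ℕ, k ≤ n → ∀ s ∈ Sect (r k), s ∉ Z k → s ∉ Z n →
      dv (H k) (Z k) (m k) s = dv (H n) (Z n) (m n) s := by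
    intro k n hkn
    have hsub := sect_mono (hr1 n) (hrm k n hkn)
    exact dv_agree (hr1 k) (fun s hs => (h1 k s hs).1) (fun s hs => (h1 n s (hsub hs)).1)
      fun s hs h3 => (h2 k s hs h3).symm.trans (h2 n s (hsub hs) h3)
  set f : ℂ → ℂ := fun s => if hs : ∃ n : ℕ, s ∈ Sect (r n) then
    dv (H (Nat.find hs)) (Z (Nat.find hs)) (m (Nat.find hs)) s else 0 with hf
  have hfG : ∀ n : ℕ, ∀ s ∈ Sect (r n), f =ᶠ[𝓝[≠] s] dv (H n) (Z n) (m n) := by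
    intro n s hs
    set B : Finset ℂ := (Finset.range (n + 1)).biUnion Z with hB
    have hBc : IsOpen ((B : Set ℂ) \ {s})ᶜ :=
      ((B.finite_toSet.subset sdiff_subset).isClosed).isOpen_compl
    have e1 : ((B : Set ℂ) \ {s})ᶜ ∈ 𝓝 s := hBc.mem_nhds (fun h => h.2 rfl)
    filter_upwards [mem_nhdsWithin_of_mem_nhds e1, self_mem_nhdsWithin,
      mem_nhdsWithin_of_mem_nhds ((sect_open (hr1 n)).mem_nhds hs)] with z hz1 hz2 hz3
    have hzB : z ∉ B := fun h => hz1 ⟨h, hz2⟩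
    have hex : ∃ n : ℕ, z ∈ Sect (r n) := ⟨n, hz3⟩
    have hle : Nat.find hex ≤ n := Nat.find_min' hex hz3
    rw [hf]
    simp only
    rw [dif_pos hex]
    refine hcomp _ _ hle z (Nat.find_spec hex) (fun h => hzB ?_) (fun h => hzB ?_)
    · exact Finset.mem_biUnion.2 ⟨_, Finset.mem_range.2 (by omega), h⟩
    · exact Finset.mem_biUnion.2 ⟨n, Finset.mem_range.2 (by omega), h⟩
  refine ⟨f, fun s hs => ?_, fun ρ hρ => ?_, fun s hs => ?_⟩
  · obtain ⟨n, hn⟩ := Sys.exists_sect (s := s) hs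
    exact (dv_mero (an_of (sect_open (hr1 n)) (fun s hs => (h1 n s hs).1) hn)).congr
      (hfG n s hn).symm
  · obtain ⟨n, hn⟩ : ∃ n, r n ≤ ρ := by
      have h3 : Tendsto (fun n : ℕ => 1 + 1 / ((n : ℝ) + 1)) atTop (𝓝 (1 + 0)) :=
        tendsto_const_nhds.add tendsto_one_div_add_atTop_nhds_zero_nat
      rw [add_zero] at h3
      obtain ⟨n, hn⟩ := (h3.eventually (gt_mem_nhds hρ)).exists
      exact ⟨n, hn.le⟩
    have hsub := sect_mono (hr1 n) hn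
    refine (Z n).finite_toSet.subset fun s hs => ?_
    by_contra hsZ
    apply hs.2
    rw [meromorphicOrderAt_congr (hfG n s (hsub hs.1))]
    exact order_zero (dv_analytic (an_of (sect_open (hr1 n)) (fun s hs => (h1 n s hs).1)
      (hsub hs.1)) hsZ) (dv_ne (h1 n s (hsub hs.1)).2 hsZ)
  · obtain ⟨n, hn⟩ := Sys.exists_sect (s := s) (by linarith)
    have hex : ∃ n : ℕ, s ∈ Sect (r n) := ⟨n, hn⟩
    rw [hf]
    simp only
    rw [dif_pos hex]
    exact (h2 _ s (Nat.find_spec hex) hs).symm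

/-- **the factorisation** -/
theorem extractM {f L : ℂ → ℂ} {ρ : ℝ} (hρ : 1 < ρ) (hf : MeromorphicOn f (Sect ρ))
    (hfin : {s : ℂ | s ∈ Sect ρ ∧ meromorphicOrderAt f s ≠ 0}.Finite)
    (hL : ∀ s ∈ Sect ρ, 1 / 2 < s.re → DifferentiableAt ℂ L s ∧ L s ≠ 0)
    (he : ∀ s ∈ Sect ρ, 1 / 2 < s.re → f s = L s) :
    ∃ (H : ℂ → ℂ) (Z : Finset ℂ) (m : ℂ → ℤ), (∀ β ∈ Z, β ∈ Sect ρ ∧ β.re ≤ 1 / 2) ∧
      (∀ s ∈ Sect ρ, DifferentiableAt ℂ H s ∧ H s ≠ 0) ∧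
      ∀ s ∈ Sect ρ, 1 / 2 < s.re → L s = H s * ∏ β ∈ Z, (s - β) ^ m β := by
  set R : Set ℂ := Sect ρ ∩ {s : ℂ | 1 / 2 < s.re} with hR
  have hRo : IsOpen R := (sect_open hρ).inter (isOpen_lt continuous_const Complex.continuous_re)
  have hRc : Convex ℝ R := (sect_convex hρ).inter (convex_halfSpace_re_gt _)
  have hLan : ∀ s ∈ R, AnalyticAt ℂ L s := fun s hs =>
    an_of hRo (fun s hs => (hL s hs.1 hs.2).1) hs
  have hord : ∀ s ∈ R, meromorphicOrderAt f s = 0 := by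
    intro s hs
    have h1 : f =ᶠ[𝓝[≠] s] L := by
      refine Eventually.filter_mono nhdsWithin_le_nhds ?_
      filter_upwards [hRo.mem_nhds hs] with z hz
      exact he z hz.1 hz.2
    rw [meromorphicOrderAt_congr h1]
    exact order_zero (hLan s hs) (hL s hs.1 hs.2).2
  have hx : ((2 : ℝ) : ℂ) ∈ R := ⟨sect_real hρ (by norm_num), by
    change 1 / 2 < ((2 : ℝ) : ℂ).re
    rw [Complex.ofReal_re]; norm_num⟩
  have hne : ∀ u : Sect ρ, meromorphicOrderAt f u ≠ ⊤ := fun u =>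
    hf.meromorphicOrderAt_ne_top_of_isPreconnected (sect_convex hρ).isPreconnected hx.1 u.2
      (by rw [hord _ hx]; exact WithTop.coe_ne_top)
  set D := MeromorphicOn.divisor f (Sect ρ) with hD
  have hDapp : ∀ s ∈ Sect ρ, D s = (meromorphicOrderAt f s).untop₀ := fun s hs =>
    hf.divisor_apply hs
  have hsupp : ∀ s, D s ≠ 0 → s ∈ Sect ρ ∧ meromorphicOrderAt f s ≠ 0 := by
    intro s hs
    have h1 : s ∈ Sect ρ := D.supportWithinDomain hs
    refine ⟨h1, fun h2 => hs ?_⟩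
    rw [hDapp s h1, h2]
    rfl
  have hDfin : (D.support).Finite := hfin.subset fun s hs => hsupp s hs
  obtain ⟨g, hg1, hg2, hg3⟩ := hf.extract_zeros_poles hne hDfin
  set Z : Finset ℂ := hDfin.toFinset with hZ
  have hfac : ∀ s, (∏ᶠ u, (· - u) ^ D u : ℂ → ℂ) s = ∏ β ∈ Z, (s - β) ^ D β := by
    intro s
    have h1 := Function.FactorizedRational.finprod_eq_fun (𝕜 := ℂ) (d := D) hDfin
    rw [h1]
    refine finprod_eq_prod_of_mulSupport_subset _ fun u hu => ?_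
    rw [hZ, Set.Finite.coe_toFinset]
    intro h2
    apply hu
    change (s - u) ^ D u = 1
    rw [show D u = 0 from h2, zpow_zero]
  have hZr : ∀ β ∈ Z, β ∈ Sect ρ ∧ β.re ≤ 1 / 2 := by
    intro β hβ
    have h1 : D β ≠ 0 := hDfin.mem_toFinset.1 hβ
    obtain ⟨h2, h3⟩ := hsupp β h1
    refine ⟨h2, ?_⟩
    by_contra h4
    push Not at h4
    exact h3 (hord β ⟨h2, h4⟩)
  refine ⟨g, Z, D, hZr, fun s hs => ⟨(hg1 s hs).differentiableAt, hg2 ⟨s, hs⟩⟩, ?_⟩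
  have hlin : ∀ s ∈ R, s ∉ Z := fun s hs h => by
    have h1 : 1 / 2 < s.re := hs.2
    linarith [(hZr s h).2]
  have a1 : AnalyticOnNhd ℂ L R := fun s hs => hLan s hs
  have a2 : AnalyticOnNhd ℂ (dv g Z D) R := fun s hs => dv_analytic (hg1 s hs.1) (hlin s hs)
  have hfr : ∃ᶠ z in 𝓝[≠] ((2 : ℝ) : ℂ), L z = dv g Z D z := by
    have hacc : AccPt ((2 : ℝ) : ℂ) (𝓟 (Sect ρ)) := by
      have h1 : 𝓝[≠] ((2 : ℝ) : ℂ) ≤ 𝓟 (Sect ρ) := by
        rw [le_principal_iff]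
        exact mem_nhdsWithin_of_mem_nhds ((sect_open hρ).mem_nhds hx.1)
      unfold AccPt
      rw [inf_eq_left.2 h1]
      infer_instance
    have h1 : f =ᶠ[𝓝[≠] ((2 : ℝ) : ℂ)] (∏ᶠ u, (· - u) ^ D u) • g := by
      refine MeromorphicAt.eventuallyEq_nhdsNE_of_eventuallyEq_codiscreteWithin (hf _ hx.1) ?_ hx.1
        hacc hg3
      exact ((Function.FactorizedRational.meromorphicNFOn D (Sect ρ)).meromorphicOn _ hx.1).smul
        (hg1 _ hx.1).meromorphicAt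
    refine Eventually.frequently ?_
    filter_upwards [h1, mem_nhdsWithin_of_mem_nhds (hRo.mem_nhds hx)] with z hz1 hz2
    rw [← he z hz2.1 hz2.2, hz1]
    unfold dv
    rw [← hfac z, mul_comm]
    rfl
  have a3 := a1.eqOn_of_preconnected_of_frequently_eq a2 hRc.isPreconnected hx hfr
  exact fun s hs hσ => a3 ⟨hs, hσ⟩

/-- a function meromorphic in the plane has finitely many zeros and poles in each sector, if it has none
to the right of `1/2` -/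
theorem finiteM {f : ℂ → ℂ} (hf : MeromorphicOn f univ)
    (h : ∀ s : ℂ, 1 / 2 < s.re → meromorphicOrderAt f s = 0) {ρ : ℝ} (hρ : 1 < ρ) :
    {s : ℂ | s ∈ Sect ρ ∧ meromorphicOrderAt f s ≠ 0}.Finite := by
  set R : ℝ := 1 / 2 + |Real.tan (Real.pi / (2 * ρ))| * (1 / 2) with hR
  have hB : IsCompact (Metric.closedBall (0 : ℂ) R) := isCompact_closedBall _ _
  have hm : MeromorphicOn f (Metric.closedBall (0 : ℂ) R) := fun z _ => hf z (mem_univ z)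
  refine ((MeromorphicOn.divisor f (Metric.closedBall (0 : ℂ) R)).finiteSupport hB).subset
    fun s hs => ?_
  obtain ⟨h1, h2⟩ := hs
  have h3 : s.re ≤ 1 / 2 := by
    by_contra h4
    push Not at h4
    exact h2 (h s h4)
  obtain ⟨h4, h5⟩ := (sect_iff hρ).1 h1
  have h6 : s ∈ Metric.closedBall (0 : ℂ) R := by
    rw [Metric.mem_closedBall, dist_zero_right]
    refine (Complex.norm_le_abs_re_add_abs_im s).trans ?_
    rw [abs_of_pos h4, hR]
    refine add_le_add h3 (h5.le.trans ?_)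
    exact mul_le_mul (le_abs_self _) h3 h4.le (abs_nonneg _)
  have h7 : meromorphicOrderAt f s ≠ ⊤ :=
    hf.meromorphicOrderAt_ne_top_of_isPreconnected isPreconnected_univ (mem_univ ((2 : ℝ) : ℂ))
      (mem_univ s) (by
        rw [h _ (by rw [Complex.ofReal_re]; norm_num)]
        exact WithTop.coe_ne_top)
  change MeromorphicOn.divisor f (Metric.closedBall (0 : ℂ) R) s ≠ 0
  rw [hm.divisor_apply h6]
  intro h8
  rcases WithTop.untop₀_eq_zero.1 h8 with h9 | h9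
  · exact h2 h9
  · exact h7 h9

end Pool.Agent.V11291.ME
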