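import Pool.Agent.V11291.ME.Trans
import Pool.Agent.TH942.ES.Ext

/-!
# Euler products with a meromorphic continuation to a sector, with given zeros and poles
-/

set_option autoImplicit false

open MeasureTheory Filter Topology Set Complex
open Pool.Agent.TH942.LS (Dat P P_le)
open Pool.Agent.TH942.SL
open Pool.Agent.TH942.ES

namespace Pool.Agent.V11291.ME

lemma pow_back {ρ : ℝ} (hρ : 1 < ρ) {s : ℂ} (hs : s ∈ Sect ρ) :
    0 < (s ^ (ρ : ℂ)).re ∧ (s ^ (ρ : ℂ)) ^ ((ρ⁻¹ : ℝ) : ℂ) = s := exists_root hρ hs.1 hs.2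

lemma pow_fwd {ρ : ℝ} (hρ : 1 < ρ) {v : ℂ} (hv : 0 < v.re) :
    v ^ ((ρ⁻¹ : ℝ) : ℂ) ∈ Sect ρ ∧ (v ^ ((ρ⁻¹ : ℝ) : ℂ)) ^ (ρ : ℂ) = v := by
  have hρ0 : 0 < ρ := by linarith
  have h0 : 0 < ρ⁻¹ := by positivity
  have h1 : ρ⁻¹ < 1 := inv_lt_one_of_one_lt₀ hρ
  have hre := re_pow_pos h0 h1 hv
  refine ⟨⟨ne_zero' hre, (arg_pow h0 h1 hv).trans_le (le_of_eq (by field_simp))⟩, ?_⟩
  rw [Complex.cpow_def_of_ne_zero (ne_zero' hre), log_pow h0 h1 hv]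
  have e1 : ((ρ⁻¹ : ℝ) : ℂ) * Complex.log v * (ρ : ℂ) = Complex.log v := by
    have : (ρ : ℂ) ≠ 0 := by exact_mod_cast hρ0.ne'
    push_cast
    field_simp
  rw [e1, Complex.exp_log (ne_zero' hv)]

lemma powρ_deriv {ρ : ℝ} (hρ : 1 < ρ) {s : ℂ} (hs : s ∈ Sect ρ) :
    HasDerivAt (fun s : ℂ => s ^ (ρ : ℂ)) ((ρ : ℂ) * s ^ ((ρ : ℂ) - 1)) s := by
  have := (hasDerivAt_id s).cpow_const (c := (ρ : ℂ)) (slit (sect_re hρ hs))
  simpa using this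

/-- the factor `1 - (β/s)^ρ` has only the simple zero `β` in the sector -/
theorem exists_phi {ρ : ℝ} (hρ : 1 < ρ) {β : ℂ} (hβ : β ∈ Sect ρ) :
    ∃ φ : ℂ → ℂ, (∀ s ∈ Sect ρ, DifferentiableAt ℂ φ s ∧ φ s ≠ 0) ∧
      ∀ s : ℂ, 1 - β ^ (ρ : ℂ) / s ^ (ρ : ℂ) = (s - β) * φ s := by
  have hρ0 : (ρ : ℂ) ≠ 0 := by exact_mod_cast (by linarith : ρ ≠ 0)
  have hne : ∀ s ∈ Sect ρ, s ^ (ρ : ℂ) ≠ 0 := fun s hs => ne_zero' (pow_back hρ hs).1
  set F : ℂ → ℂ := fun s => 1 - β ^ (ρ : ℂ) / s ^ (ρ : ℂ) with hF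
  have hFd : ∀ s ∈ Sect ρ, HasDerivAt F (β ^ (ρ : ℂ) * ((ρ : ℂ) * s ^ ((ρ : ℂ) - 1)) /
      (s ^ (ρ : ℂ)) ^ 2) s := by
    intro s hs
    have h1 := ((powρ_deriv hρ hs).fun_inv (hne s hs)).const_mul (β ^ (ρ : ℂ))
    have h2 := h1.const_sub 1
    refine (h2.congr_deriv ?_).congr_of_eventuallyEq (Eventually.of_forall fun z => ?_)
    · ring
    · rw [hF]
      simp only [div_eq_mul_inv]
  have hF0 : F β = 0 := by
    rw [hF]
    simp only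
    rw [div_self (hne β hβ), sub_self]
  have hmul : ∀ s, F s = (s - β) * dslope F β s := by
    intro s
    have := sub_smul_dslope F β s
    rw [hF0, sub_zero, smul_eq_mul] at this
    exact this.symm
  refine ⟨dslope F β, fun s hs => ⟨?_, fun h => ?_⟩, hmul⟩
  · have h1 : DifferentiableOn ℂ F (Sect ρ) := fun s hs =>
      (hFd s hs).differentiableAt.differentiableWithinAt
    have h2 := (Complex.differentiableOn_dslope ((sect_open hρ).mem_nhds hβ)).2 h1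
    exact h2.differentiableAt ((sect_open hρ).mem_nhds hs)
  · by_cases hsβ : s = β
    · subst hsβ
      rw [dslope_same, (hFd s hs).deriv] at h
      have h3 : s ^ ((ρ : ℂ) - 1) ≠ 0 := by
        rw [Complex.cpow_def_of_ne_zero hs.1]
        exact Complex.exp_ne_zero _
      exact (div_ne_zero (mul_ne_zero (hne s hs) (mul_ne_zero hρ0 h3))
        (pow_ne_zero 2 (hne s hs))) h
    · have h1 : F s = 0 := by rw [hmul, h, mul_zero]
      rw [hF] at h1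
      simp only at h1
      rw [sub_eq_zero, eq_comm, div_eq_one_iff_eq (hne s hs)] at h1
      apply hsβ
      rw [← (pow_back hρ hs).2, ← (pow_back hρ hβ).2, h1]

/-- products of integral powers of holomorphic functions without zeros -/
lemma prod_zpow_diff {U : Set ℂ} (Z : Finset ℂ) (m : ℂ → ℤ) {φ : ℂ → ℂ → ℂ}
    (h : ∀ β ∈ Z, ∀ s ∈ U, DifferentiableAt ℂ (φ β) s ∧ φ β s ≠ 0) :
    ∀ s ∈ U, DifferentiableAt ℂ (fun s => ∏ β ∈ Z, φ β s ^ m β) s ∧ ∏ β ∈ Z, φ β s ^ m β ≠ 0 := by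
  intro s hs
  constructor
  · refine DifferentiableAt.fun_finsetProd fun β hβ => ?_
    exact DifferentiableAt.zpow (h β hβ s hs).1 (Or.inl (h β hβ s hs).2)
  · exact Finset.prod_ne_zero_iff.2 fun β hβ => zpow_ne_zero _ (h β hβ s hs).2

/-- the means follow a given function up to `exp(ε (log Y)^ρ)` -/
def Follows (S : ℝ → ℝ) (mo : ℝ → ℂ) (ρ : ℝ) : Prop :=
  ∀ ε : ℝ, 0 < ε → ∃ C : ℝ, ∀ᶠ Y : ℝ in atTop,
    ‖(S Y : ℂ) - mo (Real.log Y ^ ρ)‖ ≤ C * Real.exp (ε * Real.log Y ^ ρ)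

/-- the model of the divisor -/
noncomputable def modl (Z : Finset ℂ) (m : ℂ → ℤ) (ρ y : ℝ) : ℂ :=
  ∑ β ∈ Z, (m β : ℂ) * ei (β ^ (ρ : ℂ) * y)

/-- its singular part -/
noncomputable def Ls (Z : Finset ℂ) (m : ℂ → ℤ) (ρ : ℝ) (v : ℂ) : ℂ :=
  ∑ β ∈ Z, (m β : ℂ) * ell (β ^ (ρ : ℂ)) v

/-- its derivative -/
noncomputable def Ls' (Z : Finset ℂ) (m : ℂ → ℤ) (ρ : ℝ) (v : ℂ) : ℂ :=
  ∑ β ∈ Z, (m β : ℂ) * ell' (β ^ (ρ : ℂ)) v

/-- a radius -/
noncomputable def rad (Z : Finset ℂ) (ρ : ℝ) : ℝ := 1 + 2 * ∑ β ∈ Z, ‖β ^ (ρ : ℂ)‖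

lemma rad_ge (Z : Finset ℂ) (ρ : ℝ) : 1 ≤ rad Z ρ ∧ ∀ β ∈ Z, 2 * ‖β ^ (ρ : ℂ)‖ + 1 ≤ rad Z ρ := by
  unfold rad
  constructor
  · have : 0 ≤ ∑ β ∈ Z, ‖β ^ (ρ : ℂ)‖ := Finset.sum_nonneg fun β _ => norm_nonneg _
    linarith
  · intro β hβ
    have := Finset.single_le_sum (f := fun β : ℂ => ‖β ^ (ρ : ℂ)‖) (fun β _ => norm_nonneg _) hβ
    linarith

lemma modl_mdl (Z : Finset ℂ) (m : ℂ → ℤ) (ρ : ℝ) :
    Mdl (Ls Z m ρ) (Ls' Z m ρ) (modl Z m ρ) (rad Z ρ) :=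
  mdl_sum Z (fun β => (m β : ℂ)) (fun β => β ^ (ρ : ℂ)) (rad_ge Z ρ).1 (rad_ge Z ρ).2

lemma exp_Ls {Z : Finset ℂ} {m : ℂ → ℤ} {ρ : ℝ} {φ : ℂ → ℂ → ℂ}
    (hφ : ∀ β ∈ Z, ∀ s : ℂ, 1 - β ^ (ρ : ℂ) / s ^ (ρ : ℂ) = (s - β) * φ β s) {s : ℂ}
    (hs : rad Z ρ ≤ ‖s ^ (ρ : ℂ)‖) :
    exp (-Ls Z m ρ (s ^ (ρ : ℂ))) = (∏ β ∈ Z, φ β s ^ m β) * ∏ β ∈ Z, (s - β) ^ m β := by
  unfold Ls
  rw [← Finset.sum_neg_distrib, Complex.exp_sum, ← Finset.prod_mul_distrib]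
  refine Finset.prod_congr rfl fun β hβ => ?_
  have h1 := (rad_ge Z ρ).2 β hβ
  have h2 : ‖β ^ (ρ : ℂ)‖ < ‖s ^ (ρ : ℂ)‖ := by
    have := norm_nonneg (β ^ (ρ : ℂ))
    linarith
  have h3 : -((m β : ℂ) * ell (β ^ (ρ : ℂ)) (s ^ (ρ : ℂ))) =
      (m β : ℂ) * (-ell (β ^ (ρ : ℂ)) (s ^ (ρ : ℂ))) := by ring
  rw [h3, Complex.exp_int_mul, exp_ell h2, hφ β hβ, mul_zpow, mul_comm]

variable {X : Type} {d : ℕ} {N : X → ℕ} {α : X → Fin d → ℂ}

/-- **The expansion of the means gives the meromorphic continuation.** -/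
theorem cont_of_exp (E : Sys N α) {ρ ρ' : ℝ} (hρ : 1 < ρ) (hρ' : ρ < ρ') {Z : Finset ℂ}
    {m : ℂ → ℤ} (hZ : ∀ β ∈ Z, β ∈ Sect ρ ∧ β.re ≤ 1 / 2)
    (h : Follows (SrE N α ρ ρ') (modl Z m ρ) ρ) :
    ∃ H : ℂ → ℂ, (∀ s : ℂ, s ∈ Sect ρ ∨ 1 / 2 < s.re → DifferentiableAt ℂ H s ∧ H s ≠ 0) ∧
      ∀ s : ℂ, 1 / 2 < s.re → LE N α s = H s * ∏ β ∈ Z, (s - β) ^ m β := by
  have := E.cnt
  obtain ⟨e, he⟩ := Countable.exists_injective_nat X
  have hρ0 : 0 < ρ := by linarith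
  have h0 : 0 < ρ⁻¹ := by positivity
  have h1 : ρ⁻¹ < 1 := inv_lt_one_of_one_lt₀ hρ
  obtain ⟨C₁, hC₁, h1'⟩ := E.Sr_close he hρ hρ'
  have h1'' := (Sys.tendsto_exp_rpow hρ).eventually h1'
  choose! φ hφ1 hφ2 using fun (β : ℂ) (hβ : β ∈ Z) => exists_phi hρ (hZ β hβ).1
  obtain ⟨fh, x₂, hfd, hfe⟩ := ext' (E.dat he) h0 h1 (modl_mdl Z m ρ) (fun ε hε => by
    obtain ⟨C, hC⟩ := h ε hε
    have hC' := (Sys.tendsto_exp_rpow hρ).eventually hC
    obtain ⟨y₀, hy₀⟩ := (h1''.and (hC'.and (eventually_ge_atTop 0))).exists_forall_of_atTop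
    refine ⟨|C| + C₁, y₀, fun y hy => ?_⟩
    obtain ⟨e1, e2, e3⟩ := hy₀ y hy
    rw [Sys.pow_log hρ e3] at e1 e2
    have e4 : 1 ≤ Real.exp (ε * y) := Real.one_le_exp (by positivity)
    have e5 : C * Real.exp (ε * y) ≤ |C| * Real.exp (ε * y) :=
      mul_le_mul_of_nonneg_right (le_abs_self C) (Real.exp_pos _).le
    have e6 : C₁ ≤ C₁ * Real.exp (ε * y) := le_mul_of_one_le_right hC₁ e4
    have e7 : ‖(SrE N α ρ ρ' (Real.exp (y ^ ρ⁻¹)) : ℂ) -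
        (M (lamN N e) (cN N α e) ρ⁻¹ y : ℂ)‖ ≤ C₁ := by
      rw [← Complex.ofReal_sub, Complex.norm_real]
      exact e1
    have e8 := norm_sub_le_norm_sub_add_norm_sub (M (lamN N e) (cN N α e) ρ⁻¹ y : ℂ)
      (SrE N α ρ ρ' (Real.exp (y ^ ρ⁻¹)) : ℂ) (modl Z m ρ y)
    rw [norm_sub_rev] at e7
    rw [add_mul]
    linarith)
  set Dh : ℂ → ℂ := fun s => fh (s ^ (ρ : ℂ)) with hDh
  have hDd : ∀ s ∈ Sect ρ, DifferentiableAt ℂ Dh s := fun s hs =>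
    DifferentiableAt.comp (f := fun s : ℂ => s ^ (ρ : ℂ)) s (hfd _ (pow_back hρ hs).1)
      (powρ_deriv hρ hs).differentiableAt
  have hprod := prod_zpow_diff (U := Sect ρ) Z m fun β hβ => hφ1 β hβ
  set H₀ : ℂ → ℂ := fun s => exp (GG N α s - Dh s) * ∏ β ∈ Z, φ β s ^ m β with hH₀
  have hH₀d : ∀ s ∈ Sect ρ, DifferentiableAt ℂ H₀ s ∧ H₀ s ≠ 0 := fun s hs =>
    ⟨(((E.GG_diff (sect_re hρ hs)).sub (hDd s hs)).cexp).mul (hprod s hs).1,
      mul_ne_zero (Complex.exp_ne_zero _) (hprod s hs).2⟩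
  -- the linear factors to the right of `1/2`
  have hlin := prod_zpow_diff (U := {s : ℂ | 1 / 2 < s.re}) Z m (φ := fun β s => s - β)
    fun β hβ s hs => ⟨by fun_prop, fun h2 => by
      have h3 : 1 / 2 < s.re := hs
      rw [sub_eq_zero.1 h2] at h3
      linarith [(hZ β hβ).2]⟩
  have hEq : ∀ s ∈ Sect ρ, 1 / 2 < s.re → LE N α s = H₀ s * ∏ β ∈ Z, (s - β) ^ m β := by
    set R : Set ℂ := Sect ρ ∩ {s : ℂ | 1 / 2 < s.re} with hR
    have hRo : IsOpen R := (sect_open hρ).inter (isOpen_lt continuous_const Complex.continuous_re)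
    have hRc : Convex ℝ R := (sect_convex hρ).inter (convex_halfSpace_re_gt _)
    have a1 : AnalyticOnNhd ℂ (LE N α) R :=
      DifferentiableOn.analyticOnNhd (fun s hs => (E.LE_diff hs.2).1.differentiableWithinAt) hRo
    have a2 : AnalyticOnNhd ℂ (fun s => H₀ s * ∏ β ∈ Z, (s - β) ^ m β) R :=
      DifferentiableOn.analyticOnNhd (fun s hs =>
        ((hH₀d s hs.1).1.mul (hlin s hs.2).1).differentiableWithinAt) hRo
    have hT : Tendsto (fun x : ℝ => x ^ ρ) atTop atTop := tendsto_rpow_atTop hρ0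
    obtain ⟨x, hx⟩ := ((hT.eventually_gt_atTop (max x₂ (rad Z ρ))).and
      (eventually_gt_atTop 1)).exists
    obtain ⟨hx1, hx2⟩ := hx
    have hx0 : 0 < x := by linarith
    have hxR : (x : ℂ) ∈ R := ⟨sect_real hρ hx0, by
      rw [Set.mem_ofPred_eq, Complex.ofReal_re]; linarith⟩
    have hxp : (((x : ℂ)) ^ (ρ : ℂ)).re = x ^ ρ := by
      rw [← Complex.ofReal_cpow hx0.le, Complex.ofReal_re]
    have hnear : LE N α =ᶠ[𝓝 (x : ℂ)] fun s => H₀ s * ∏ β ∈ Z, (s - β) ^ m β := by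
      have hc : ContinuousAt (fun s : ℂ => (s ^ (ρ : ℂ)).re) (x : ℂ) :=
        Complex.continuous_re.continuousAt.comp
          (ContinuousAt.cpow continuousAt_id continuousAt_const
            (slit (show 0 < ((x : ℂ)).re by rwa [Complex.ofReal_re])))
      have h5 : ∀ᶠ s : ℂ in 𝓝 (x : ℂ), max x₂ (rad Z ρ) < (s ^ (ρ : ℂ)).re :=
        hc.eventually (lt_mem_nhds (show max x₂ (rad Z ρ) < ((x : ℂ) ^ (ρ : ℂ)).re by
          rw [hxp]; exact hx1))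
      filter_upwards [h5, hRo.mem_nhds hxR] with s h6 h7
      have h8 := hfe (s ^ (ρ : ℂ)) (lt_of_le_of_lt (le_max_left _ _) h6)
      have h9 : f₀ (lamN N e) (cN N α e) ρ⁻¹ (s ^ (ρ : ℂ)) = DE N α s := by
        unfold f₀
        rw [(pow_back hρ h7.1).2]
        exact Sys.DD_eq he s
      rw [h9] at h8
      have h10 : rad Z ρ ≤ ‖s ^ (ρ : ℂ)‖ :=
        ((lt_of_le_of_lt (le_max_right _ _) h6).le).trans (re_le_norm _)
      rw [E.LE_eq h7.2, hH₀]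
      simp only
      have h11 : GG N α s - DE N α s = (GG N α s - Dh s) + -Ls Z m ρ (s ^ (ρ : ℂ)) := by
        rw [hDh]
        simp only
        rw [h8]
        ring
      rw [h11, Complex.exp_add, exp_Ls hφ2 h10]
      ring
    have a3 := a1.eqOn_of_preconnected_of_eventuallyEq a2 hRc.isPreconnected hxR hnear
    exact fun s hs hσ => a3 ⟨hs, hσ⟩
  set H : ℂ → ℂ := fun s => if 1 / 2 < s.re then LE N α s * (∏ β ∈ Z, (s - β) ^ m β)⁻¹ else H₀ s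
    with hH
  have hH1 : ∀ s : ℂ, 1 / 2 < s.re → H s = LE N α s * (∏ β ∈ Z, (s - β) ^ m β)⁻¹ := fun s hs => by
    rw [hH]
    simp only
    rw [if_pos hs]
  have hH2 : ∀ s ∈ Sect ρ, H s = H₀ s := fun s hs => by
    by_cases h2 : 1 / 2 < s.re
    · rw [hH1 s h2, hEq s hs h2, mul_assoc, mul_inv_cancel₀ (hlin s h2).2, mul_one]
    · rw [hH]
      simp only
      rw [if_neg h2]
  refine ⟨H, fun s hs => ?_, fun s hs => ?_⟩
  · rcases hs with hs | hs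
    · refine ⟨(hH₀d s hs).1.congr_of_eventuallyEq ?_, by rw [hH2 s hs]; exact (hH₀d s hs).2⟩
      filter_upwards [(sect_open hρ).mem_nhds hs] with z hz
      exact hH2 z hz
    · have ho : IsOpen {z : ℂ | 1 / 2 < z.re} := isOpen_lt continuous_const Complex.continuous_re
      obtain ⟨e1, e2⟩ := E.LE_diff hs
      have e3 : DifferentiableAt ℂ (fun s => LE N α s * (∏ β ∈ Z, (s - β) ^ m β)⁻¹) s :=
        e1.mul ((hlin s hs).1.inv (hlin s hs).2)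
      refine ⟨e3.congr_of_eventuallyEq ?_, by
        rw [hH1 s hs]; exact mul_ne_zero e2 (inv_ne_zero (hlin s hs).2)⟩
      filter_upwards [ho.mem_nhds hs] with z hz
      exact hH1 z hz
  · rw [hH1 s hs, mul_assoc, inv_mul_cancel₀ (hlin s hs).2, mul_one]

/-- the means, for a continuation of the difference -/
theorem up_ext' {lam c : ℕ → ℝ} {δ σ : ℝ} (D : Dat lam c δ σ) {ρ : ℝ} (hρ : 1 < ρ)
    {Lf Lf' : ℂ → ℂ} {mo : ℝ → ℂ} {x₁ : ℝ} (Md : Mdl Lf Lf' mo x₁) {Dh : ℂ → ℂ} {τ : ℝ}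
    (hτ : σ ≤ τ) (hd : ∀ s ∈ Sect ρ, DifferentiableAt ℂ Dh s)
    (he : ∀ s ∈ Sect ρ, τ < s.re → Dh s = DD lam c s - Lf (s ^ (ρ : ℂ))) {ε : ℝ} (hε : 0 < ε) :
    ∃ C : ℝ, ∀ y : ℝ, 1 ≤ y → ‖(M lam c ρ⁻¹ y : ℂ) - mo y‖ ≤ C * Real.exp (ε * y) := by
  have hρ0 : 0 < ρ := by linarith
  have h0 : 0 < ρ⁻¹ := by positivity
  have h1 : ρ⁻¹ < 1 := inv_lt_one_of_one_lt₀ hρ
  set f : ℂ → ℂ := fun v => Dh (v ^ ((ρ⁻¹ : ℝ) : ℂ)) with hf
  have hUo : IsOpen {v : ℂ | 0 < v.re} := isOpen_lt continuous_const Complex.continuous_re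
  have hfd : ∀ v : ℂ, 0 < v.re → DifferentiableAt ℂ f v := fun v hv =>
    DifferentiableAt.comp (f := fun v : ℂ => v ^ ((ρ⁻¹ : ℝ) : ℂ)) v (hd _ (pow_fwd hρ hv).1)
      (pow_deriv (slit hv)).differentiableAt
  have hfd' : ∀ v : ℂ, 0 < v.re → DifferentiableAt ℂ (deriv f) v := fun v hv => by
    have h2 : DifferentiableOn ℂ f {v : ℂ | 0 < v.re} := fun z hz =>
      (hfd z hz).differentiableWithinAt
    exact (h2.analyticAt (hUo.mem_nhds hv)).deriv.differentiableAt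
  obtain ⟨x₂, hx21, hx₂⟩ := exists_abscissa h0 h1 τ
  refine up_gen' D h0 h1 Md (f := f) (f' := deriv f) (fun v hv => (hfd v hv).hasDerivAt) hfd'
    (x₂ := max x₂ (x₁ + 1)) (fun v hv hv2 => ?_) hε
  have e1 := hx₂ v hv ((le_max_left _ _).trans hv2)
  have e2 := re_pow_ge h0 h1 hv
  have e3 : τ < (v ^ ((ρ⁻¹ : ℝ) : ℂ)).re := by linarith
  have e3' : x₁ ≤ ‖v‖ := by
    have := (le_max_right x₂ (x₁ + 1)).trans hv2
    linarith
  have e4 : ∀ᶠ w in 𝓝 v, f w = f₀ lam c ρ⁻¹ w - Lf w := by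
    have hc : ContinuousAt (fun w : ℂ => (w ^ ((ρ⁻¹ : ℝ) : ℂ)).re) v :=
      Complex.continuous_re.continuousAt.comp
        (ContinuousAt.cpow continuousAt_id continuousAt_const (slit hv))
    filter_upwards [hUo.mem_nhds hv, hc.eventually (lt_mem_nhds e3)] with w h2 h3
    have h4 := he _ (pow_fwd hρ h2).1 h3
    rw [(pow_fwd hρ h2).2] at h4
    exact h4
  refine ⟨e4.self_of_nhds, ?_⟩
  have e5 : f =ᶠ[𝓝 v] fun w => f₀ lam c ρ⁻¹ w - Lf w := e4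
  rw [e5.deriv_eq]
  exact ((f₀_deriv D hv (lt_of_le_of_lt hτ e3)).sub (Md.d v e3')).deriv

/-- **The meromorphic continuation gives the expansion of the means.** -/
theorem exp_of_cont (E : Sys N α) {ρ ρ' : ℝ} (hρ : 1 < ρ) (hρ' : ρ < ρ') {Z : Finset ℂ}
    {m : ℂ → ℤ} (hZ : ∀ β ∈ Z, β ∈ Sect ρ) {H : ℂ → ℂ}
    (hd : ∀ s ∈ Sect ρ, DifferentiableAt ℂ H s) (h0 : ∀ s ∈ Sect ρ, H s ≠ 0) {σ : ℝ}
    (he' : ∀ s ∈ Sect ρ, σ < s.re → LE N α s = H s * ∏ β ∈ Z, (s - β) ^ m β) :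
    Follows (SrE N α ρ ρ') (modl Z m ρ) ρ := by
  intro ε hε
  have := E.cnt
  obtain ⟨e, he⟩ := Countable.exists_injective_nat X
  have hρ0 : 0 < ρ := by linarith
  have ho : IsOpen {z : ℂ | 0 < z.re} := isOpen_lt continuous_const Complex.continuous_re
  choose! φ hφ1 hφ2 using fun (β : ℂ) (hβ : β ∈ Z) => exists_phi hρ (hZ β hβ)
  have hprod := prod_zpow_diff (U := Sect ρ) Z m fun β hβ => hφ1 β hβ
  -- the modified function
  set G : ℂ → ℂ := fun s => H s * (∏ β ∈ Z, φ β s ^ m β)⁻¹ with hG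
  have hGd : ∀ s ∈ Sect ρ, DifferentiableAt ℂ G s := fun s hs =>
    (hd s hs).mul ((hprod s hs).1.inv (hprod s hs).2)
  have hG0 : ∀ s ∈ Sect ρ, G s ≠ 0 := fun s hs => mul_ne_zero (h0 s hs) (inv_ne_zero (hprod s hs).2)
  have hGan : ∀ s ∈ Sect ρ, AnalyticAt ℂ G s := fun s hs => by
    have h1 : DifferentiableOn ℂ G (Sect ρ) := fun z hz => (hGd z hz).differentiableWithinAt
    exact h1.analyticAt ((sect_open hρ).mem_nhds hs)
  have hGGan : ∀ s ∈ Sect ρ, AnalyticAt ℂ (GG N α) s := fun s hs => by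
    have h1 : DifferentiableOn ℂ (GG N α) {z : ℂ | 0 < z.re} := fun z hz =>
      (E.GG_diff hz).differentiableWithinAt
    exact h1.analyticAt (ho.mem_nhds (sect_re hρ hs))
  set q : ℂ → ℂ := fun s => deriv (GG N α) s - deriv G s / G s with hq
  have hqd : DifferentiableOn ℂ q (Sect ρ) := fun s hs =>
    (((hGGan s hs).deriv.differentiableAt).sub
      ((hGan s hs).deriv.differentiableAt.div (hGd s hs) (hG0 s hs))).differentiableWithinAt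
  obtain ⟨F, hF⟩ := convex_primitive (sect_open hρ) (sect_convex hρ) hqd
  -- comparison with the sum
  have hrad := (rad_ge Z ρ).1
  set r₀ : ℝ := (rad Z ρ) ^ ρ⁻¹ with hr₀
  have hr₀0 : 0 ≤ r₀ := Real.rpow_nonneg (by linarith) _
  have hbig : ∀ s : ℂ, r₀ < s.re → rad Z ρ ≤ ‖s ^ (ρ : ℂ)‖ := by
    intro s hs
    rw [norm_pow']
    have h1 : r₀ ≤ ‖s‖ := hs.le.trans (re_le_norm s)
    have h2 := Real.rpow_le_rpow hr₀0 h1 hρ0.le
    rwa [hr₀, ← Real.rpow_mul (by linarith), inv_mul_cancel₀ hρ0.ne', Real.rpow_one] at h2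
  set τ : ℝ := max (max σ 1) r₀ with hτ
  set R : Set ℂ := Sect ρ ∩ {s : ℂ | τ < s.re} with hR
  have hRo : IsOpen R := (sect_open hρ).inter (isOpen_lt continuous_const Complex.continuous_re)
  have hRc : Convex ℝ R := (sect_convex hρ).inter (convex_halfSpace_re_gt _)
  have hRx : ∀ s ∈ R, s ∈ Sect ρ ∧ σ < s.re ∧ 1 < s.re ∧ r₀ < s.re := fun s hs =>
    ⟨hs.1, lt_of_le_of_lt ((le_max_left _ _).trans (le_max_left _ _)) hs.2,
      lt_of_le_of_lt ((le_max_right _ _).trans (le_max_left _ _)) hs.2,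
      lt_of_le_of_lt (le_max_right _ _) hs.2⟩
  have Md := modl_mdl Z m ρ
  set T : ℂ → ℂ := fun s => Ls Z m ρ (s ^ (ρ : ℂ)) with hT
  have hTd : ∀ s ∈ R, DifferentiableAt ℂ T s := fun s hs => by
    obtain ⟨e1, e2, e3, e4⟩ := hRx s hs
    exact DifferentiableAt.comp (f := fun s : ℂ => s ^ (ρ : ℂ)) s (Md.d _ (hbig s e4)).differentiableAt
      (powρ_deriv hρ e1).differentiableAt
  have hcon : ∀ s ∈ R, HasDerivAt (fun s => F s - (DE N α s - T s)) 0 s := by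
    intro s hs
    obtain ⟨e1, e2, e3, e4'⟩ := hRx s hs
    have e4 := (E.DE_diff (s := s) (by linarith)).hasDerivAt
    have e4'' := (hTd s hs).hasDerivAt
    refine ((hF s e1).sub (e4.sub e4'')).congr_deriv ?_
    have e5 : G =ᶠ[𝓝 s] fun s => exp (GG N α s - DE N α s + T s) := by
      filter_upwards [hRo.mem_nhds hs] with z hz
      obtain ⟨f1, f2, f3, f4⟩ := hRx z hz
      have g1 := he' z f1 f2
      rw [E.LE_eq (by linarith)] at g1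
      have g2 := exp_Ls (m := m) hφ2 (hbig z f4)
      have g3 : exp (T z) * exp (-T z) = 1 := by rw [← Complex.exp_add]; simp
      have g4 := (hprod z f1).2
      have g5 : exp (-T z) = (∏ β ∈ Z, φ β z ^ m β) * ∏ β ∈ Z, (z - β) ^ m β := g2
      have g6 : ∏ β ∈ Z, (z - β) ^ m β ≠ 0 := fun h => by
        rw [h, mul_zero] at g5
        exact Complex.exp_ne_zero _ g5
      rw [Complex.exp_add, g1]
      rw [g5] at g3
      rw [hG]
      simp only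
      field_simp
      linear_combination -(H z) * g3
    have e6 : HasDerivAt (fun s => exp (GG N α s - DE N α s + T s))
        (exp (GG N α s - DE N α s + T s) * (deriv (GG N α) s - deriv (DE N α) s + deriv T s)) s :=
      (((E.GG_diff (sect_re hρ e1)).hasDerivAt.sub e4).add e4'').cexp
    rw [hq]
    simp only
    rw [e5.deriv_eq, e5.eq_of_nhds, e6.deriv]
    have := Complex.exp_ne_zero (GG N α s - DE N α s + T s)
    field_simp
    ring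
  set w₀ : ℂ := ((τ + 1 : ℝ) : ℂ) with hw₀
  have hτ1 : 1 ≤ τ := (le_max_right _ _).trans (le_max_left _ _)
  have hw₀R : w₀ ∈ R := ⟨sect_real hρ (by linarith), by
    change τ < w₀.re
    rw [hw₀, Complex.ofReal_re]
    linarith⟩
  have hconst : ∀ s ∈ R, F s - (DE N α s - T s) = F w₀ - (DE N α w₀ - T w₀) := fun s hs =>
    hRc.is_const_of_fderivWithin_eq_zero (𝕜 := ℂ) (f := fun s => F s - (DE N α s - T s))
      (fun z hz => (hcon z hz).differentiableAt.differentiableWithinAt) (fun z hz => by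
        rw [fderivWithin_of_isOpen hRo hz]
        ext
        simp [(hcon z hz).deriv]) hs hw₀R
  set k : ℂ := F w₀ - (DE N α w₀ - T w₀) with hk
  obtain ⟨C, hC⟩ := up_ext' (E.dat' (σ := τ) he (by linarith)) hρ Md (Dh := fun s => F s - k)
    (τ := τ) le_rfl (fun s hs => (hF s hs).differentiableAt.sub_const _)
    (fun s hs hs2 => by
      have e1 := hconst s ⟨hs, hs2⟩
      rw [Sys.DD_eq he]
      change F s - k = DE N α s - T s
      rw [← e1]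
      ring) hε
  obtain ⟨C₁, hC₁, h1⟩ := E.Sr_close he hρ hρ'
  refine ⟨C + C₁, ?_⟩
  filter_upwards [h1, Real.tendsto_log_atTop.eventually_ge_atTop 1] with Y h3 h4
  have hT : 0 < Real.log Y := by linarith
  have hy : 1 ≤ Real.log Y ^ ρ := Real.one_le_rpow h4 hρ0.le
  have h5 := hC _ hy
  have e1 : 1 ≤ Real.exp (ε * Real.log Y ^ ρ) := Real.one_le_exp (by positivity)
  have e4 : C₁ ≤ C₁ * Real.exp (ε * Real.log Y ^ ρ) := le_mul_of_one_le_right hC₁ e1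
  have e7 : ‖(SrE N α ρ ρ' Y : ℂ) - (M (lamN N e) (cN N α e) ρ⁻¹ (Real.log Y ^ ρ) : ℂ)‖ ≤ C₁ := by
    rw [← Complex.ofReal_sub, Complex.norm_real]
    exact h3
  have e8 := norm_sub_le_norm_sub_add_norm_sub (SrE N α ρ ρ' Y : ℂ)
    (M (lamN N e) (cN N α e) ρ⁻¹ (Real.log Y ^ ρ) : ℂ) (modl Z m ρ (Real.log Y ^ ρ))
  rw [add_mul]
  linarith

end Pool.Agent.V11291.ME
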