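import Pool.Agent.TH942.SL.Asy

/-!
# The entire function `∑ z^n / (n n!)` and its Laplace transform
-/

set_option autoImplicit false

open MeasureTheory Filter Topology Set Complex
open Pool.Agent.TH942.SL

namespace Pool.Agent.V11291.ME

/-- linearity -/
lemma V_mul (c : ℝ) (a : ℂ) (H : ℂ → ℂ) : V c (fun z => a * H z) = a * V c H := by
  unfold V
  rw [integral_const_mul]
  ring

lemma exp_pow_strip {a b y : ℝ} (ha : 0 < a) (hy : 0 ≤ y) (n : ℕ) {z : ℂ} (h1 : a ≤ z.re)
    (h2 : z.re ≤ b) : ‖exp (z * y) / z ^ (n + 2)‖ ≤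
      (Real.exp (b * y) / a ^ n * (1 + 1 / a) ^ (2 : ℝ)) * (1 + |z.im|) ^ (-(2 : ℝ)) := by
  have hn : a ≤ ‖z‖ := h1.trans (re_le_norm z)
  have hn0 : 0 < ‖z‖ := ha.trans_le hn
  have e1 := nb ha (by norm_num : (0 : ℝ) ≤ 2) hn
  rw [norm_div, Complex.norm_exp, Complex.re_mul_ofReal, norm_pow, pow_add]
  have e2 : Real.exp (z.re * y) ≤ Real.exp (b * y) :=
    Real.exp_le_exp.2 (mul_le_mul_of_nonneg_right h2 hy)
  have e3 : ‖z‖ ^ (-(2 : ℝ)) = (‖z‖ ^ 2)⁻¹ := by
    rw [Real.rpow_neg hn0.le]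
    norm_num
  have e4 : a ^ n ≤ ‖z‖ ^ n := pow_le_pow_left₀ ha.le hn n
  calc Real.exp (z.re * y) / (‖z‖ ^ n * ‖z‖ ^ 2) ≤ Real.exp (b * y) / (a ^ n * ‖z‖ ^ 2) := by
        gcongr
    _ = Real.exp (b * y) / a ^ n * ‖z‖ ^ (-(2 : ℝ)) := by
        rw [e3]
        field_simp
    _ ≤ Real.exp (b * y) / a ^ n * ((1 + 1 / a) ^ (2 : ℝ) * (1 + |z.im|) ^ (-(2 : ℝ))) := by
        gcongr
    _ = _ := by ring

lemma exp_pow_diff {z : ℂ} (hz : 0 < z.re) (y : ℝ) (n : ℕ) :
    DifferentiableAt ℂ (fun z : ℂ => exp (z * y) / z ^ (n + 2)) z := by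
  refine DifferentiableAt.div (by fun_prop) (by fun_prop) (pow_ne_zero _ (ne_zero' hz))

lemma exp_pow_int {x y : ℝ} (hx : 0 < x) (hy : 0 ≤ y) (n : ℕ) :
    Integrable (fun t : ℝ => exp ((x + t * I) * y) / (x + t * I) ^ (n + 2)) :=
  line_int (H := fun z : ℂ => exp (z * y) / z ^ (n + 2)) (p := 2) (by norm_num)
    (fun s hs => (exp_pow_diff (by rw [hs]; exact hx) y n).continuousAt)
    (fun s hs => exp_pow_strip hx hy n hs.ge hs.le)

lemma V_two {x : ℝ} (hx : 0 < x) : V x (fun z => exp z / z ^ 2) = 1 := by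
  have key : ∀ a b : ℝ, 0 < a → a ≤ b → V a (fun z => exp z / z ^ 2) =
      V b (fun z => exp z / z ^ 2) := by
    intro a b ha hab
    refine shift (p := 2) (B := Real.exp (b * 1) / a ^ 0 * (1 + 1 / a) ^ (2 : ℝ)) (by norm_num) hab
      (fun s hs _ => ?_) (fun s hs hs2 => ?_)
    · have := exp_pow_diff (z := s) (ha.trans_le hs) 1 0
      simpa using this
    · have := exp_pow_strip ha (zero_le_one) 0 hs hs2
      simpa using this
  rcases le_total x 1 with h | h
  · rw [key x 1 hx h, V_one]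
  · rw [← key 1 x one_pos h, V_one]

/-- **the integrals of the powers** -/
theorem V_pow (n : ℕ) {x y : ℝ} (hx : 0 < x) (hy : 0 < y) :
    V x (fun z => exp (z * y) / z ^ (n + 2)) = (y : ℂ) ^ (n + 1) / ((n + 1).factorial : ℂ) := by
  have hyc : (y : ℂ) ≠ 0 := by exact_mod_cast hy.ne'
  induction n with
  | zero =>
    rw [V_scale hy]
    have e1 : (fun z : ℂ => exp (z / y * y) / (z / y) ^ (0 + 2) / y) =
        fun z => (y : ℂ) * (exp z / z ^ 2) := by
      funext z
      rw [div_mul_cancel₀ _ hyc]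
      rw [zero_add, div_pow]
      by_cases hz : z = 0
      · simp [hz]
      · field_simp
    rw [e1, V_mul, V_two (by positivity)]
    simp
  | succ n ih =>
    have hre : ∀ t : ℝ, ((x : ℂ) + t * I).re = x := fun t => by simp
    have him : ∀ t : ℝ, ((x : ℂ) + t * I).im = t := fun t => by simp
    have i1 := exp_pow_int hx hy.le n
    have i2 := exp_pow_int hx hy.le (n + 1)
    have hlim : ∀ l : Filter ℝ, Tendsto (fun t : ℝ => |t|) l atTop →
        Tendsto (fun t : ℝ => exp (((x : ℂ) + t * I) * y) / ((x : ℂ) + t * I) ^ (n + 2)) l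
          (𝓝 0) := by
      intro l hl
      have e1 : Tendsto (fun T : ℝ => (1 + |T|)) l atTop := tendsto_atTop_add_const_left _ _ hl
      have e2 := (tendsto_rpow_neg_atTop (y := 2) (by norm_num)).comp e1
      have e3 := e2.const_mul (Real.exp (x * y) / x ^ n * (1 + 1 / x) ^ (2 : ℝ))
      rw [mul_zero] at e3
      refine squeeze_zero_norm (fun t => ?_) e3
      have := exp_pow_strip (z := (x : ℂ) + t * I) hx hy.le n (hre t).ge (hre t).le
      rw [him] at this
      exact this
    have key := V_deriv (c := x) (F := fun z : ℂ => exp (z * y) / z ^ (n + 2))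
      (F' := fun z : ℂ => y * (exp (z * y) / z ^ (n + 2)) -
        (n + 2) * (exp (z * y) / z ^ (n + 1 + 2))) (fun z hz => ?_)
      ((i1.const_mul _).sub (i2.const_mul _)) (hlim _ tendsto_abs_atTop_atTop)
      (hlim _ tendsto_abs_atBot_atTop)
    · have e1 : V x (fun z : ℂ => y * (exp (z * y) / z ^ (n + 2)) -
          (n + 2) * (exp (z * y) / z ^ (n + 1 + 2))) =
          y * V x (fun z => exp (z * y) / z ^ (n + 2)) -
            (n + 2) * V x (fun z => exp (z * y) / z ^ (n + 1 + 2)) := by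
        unfold V
        rw [integral_sub (i1.const_mul _) (i2.const_mul _), integral_const_mul,
          integral_const_mul]
        ring
      rw [e1, ih] at key
      have hn2 : (n : ℂ) + 2 ≠ 0 := by exact_mod_cast (by omega : n + 2 ≠ 0)
      have hf : ((n + 1).factorial : ℂ) ≠ 0 := by exact_mod_cast (n + 1).factorial_ne_zero
      have hfac : ((n + 1 + 1).factorial : ℂ) = (n + 2) * ((n + 1).factorial : ℂ) := by
        rw [Nat.factorial_succ (n + 1)]
        push_cast
        ring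
      rw [hfac]
      generalize (V x fun z : ℂ => exp (z * y) / z ^ (n + 1 + 2)) = W at key ⊢
      field_simp
      field_simp at key
      linear_combination -key
    · have hz0 : z ≠ 0 := ne_zero' (by rw [hz]; exact hx)
      have e2 : HasDerivAt (fun z : ℂ => exp (z * y)) (exp (z * y) * (1 * y)) z :=
        ((hasDerivAt_id z).mul_const _).cexp
      have e3 := e2.div (hasDerivAt_pow (n + 2) z) (pow_ne_zero _ hz0)
      refine e3.congr_deriv ?_
      push_cast
      field_simp
      ring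

/-- the terms of the series -/
noncomputable def et (n : ℕ) (z : ℂ) : ℂ := z ^ (n + 1) / ((n + 1) * (n + 1).factorial)

/-- the entire function `∑ z^n / (n n!)`, `n ≥ 1` -/
noncomputable def ei (z : ℂ) : ℂ := ∑' n : ℕ, et n z

lemma norm_et (n : ℕ) (z : ℂ) : ‖et n z‖ ≤ ‖z‖ ^ (n + 1) / (n + 1).factorial := by
  unfold et
  rw [norm_div, norm_pow, norm_mul, Complex.norm_natCast]
  have e1 : ‖(n : ℂ) + 1‖ = n + 1 := by
    rw [show (n : ℂ) + 1 = ((n + 1 : ℕ) : ℂ) by push_cast; ring, Complex.norm_natCast]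
    push_cast
    ring
  rw [e1]
  have hf : (0 : ℝ) < (n + 1).factorial := by exact_mod_cast (n + 1).factorial_pos
  gcongr
  nlinarith [(Nat.cast_nonneg n : (0 : ℝ) ≤ n)]

lemma exp_summable (r : ℝ) : Summable fun n : ℕ => r ^ (n + 1) / (n + 1).factorial :=
  (summable_nat_add_iff 1).2 (Real.summable_pow_div_factorial r)

lemma et_summable (z : ℂ) : Summable fun n : ℕ => et n z :=
  Summable.of_norm_bounded (exp_summable ‖z‖) fun n => norm_et n z

lemma norm_ei (z : ℂ) : ‖ei z‖ ≤ Real.exp ‖z‖ := by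
  have h1 : HasSum (fun n : ℕ => ‖z‖ ^ n / n.factorial) (Real.exp ‖z‖) := by
    have := NormedSpace.expSeries_div_hasSum_exp (𝔸 := ℝ) ‖z‖
    rwa [← Real.exp_eq_exp_ℝ] at this
  have h2 := (hasSum_nat_add_iff' 1).2 h1
  have h3 : ‖ei z‖ ≤ Real.exp ‖z‖ - ∑ i ∈ Finset.range 1, ‖z‖ ^ i / i.factorial :=
    tsum_of_norm_bounded h2 fun n => norm_et n z
  refine h3.trans ?_
  simp

lemma et_cont (n : ℕ) : Continuous (et n) := by
  unfold et
  fun_prop

lemma ei_cont : Continuous ei := by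
  rw [continuous_iff_continuousAt]
  intro z
  have h1 : ContinuousOn ei (Metric.ball z 1) := by
    refine continuousOn_tsum (u := fun n : ℕ => (‖z‖ + 1) ^ (n + 1) / (n + 1).factorial)
      (fun n => (et_cont n).continuousOn) (exp_summable _) fun n w hw => ?_
    refine (norm_et n w).trans ?_
    have h2 : ‖w‖ ≤ ‖z‖ + 1 := by
      rw [Metric.mem_ball, Complex.dist_eq] at hw
      have := norm_add_le (w - z) z
      rw [sub_add_cancel] at this
      linarith
    gcongr
  exact h1.continuousAt (Metric.ball_mem_nhds z one_pos)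

end Pool.Agent.V11291.ME
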