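import Pool.Agent.V11291.ME.Ein

/-!
# The logarithmic singularity `-log (1 - w / z)`: its inverse transform is `∑ (w y)^n / (n n!)`
-/

set_option autoImplicit false

open MeasureTheory Filter Topology Set Complex
open Pool.Agent.TH942.SL

namespace Pool.Agent.V11291.ME

/-- the logarithmic singularity -/
noncomputable def ell (w z : ℂ) : ℂ := -log (1 - w / z)

/-- its derivative -/
noncomputable def ell' (w z : ℂ) : ℂ := -(w / (z * (z - w)))

/-- minus the derivative of `ell w z / z` -/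
noncomputable def kk (w z : ℂ) : ℂ := hh (ell w) (ell' w) z

/-- the coefficients -/
noncomputable def kt (w : ℂ) (n : ℕ) : ℂ := ((n + 2 : ℂ) / (n + 1)) * w ^ (n + 1)

lemma n1 (n : ℕ) : (n : ℂ) + 1 ≠ 0 := by exact_mod_cast n.succ_ne_zero

lemma norm_kt (w : ℂ) (n : ℕ) : ‖kt w n‖ ≤ 2 * ‖w‖ ^ (n + 1) := by
  unfold kt
  rw [norm_mul, norm_pow]
  refine mul_le_mul_of_nonneg_right ?_ (by positivity)
  rw [norm_div]
  have e1 : ‖(n : ℂ) + 1‖ = n + 1 := by
    rw [show (n : ℂ) + 1 = ((n + 1 : ℕ) : ℂ) by push_cast; ring, Complex.norm_natCast]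
    push_cast
    ring
  have e2 : ‖(n : ℂ) + 2‖ = n + 2 := by
    rw [show (n : ℂ) + 2 = ((n + 2 : ℕ) : ℂ) by push_cast; ring, Complex.norm_natCast]
    push_cast
    ring
  rw [e1, e2, div_le_iff₀ (by positivity)]
  have : (0 : ℝ) ≤ n := Nat.cast_nonneg n
  linarith

lemma small_div {w z : ℂ} (h : ‖w‖ < ‖z‖) : z ≠ 0 ∧ ‖w / z‖ < 1 ∧ z - w ≠ 0 := by
  have hz : 0 < ‖z‖ := (norm_nonneg w).trans_lt h
  refine ⟨norm_pos_iff.1 hz, ?_, fun h2 => ?_⟩
  · rw [norm_div, div_lt_one hz]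
    exact h
  · rw [sub_eq_zero.1 h2] at h
    exact lt_irrefl _ h

lemma slit_one {u : ℂ} (h : ‖u‖ < 1) : 1 - u ∈ slitPlane := by
  left
  rw [Complex.sub_re, Complex.one_re]
  have := (Complex.re_le_norm u)
  linarith

theorem kk_hasSum {w z : ℂ} (h : ‖w‖ < ‖z‖) : HasSum (fun n : ℕ => kt w n / z ^ (n + 1 + 2)) (kk w z) := by
  obtain ⟨hz, h1, h2⟩ := small_div h
  have s1 := Complex.hasSum_taylorSeries_neg_log h1
  have s2 := (hasSum_nat_add_iff' 1).2 s1
  have s3 := (hasSum_geometric_of_norm_lt_one h1).mul_left (w / z)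
  have s4 := (s2.add s3).div_const (z ^ 2)
  have e1 : kk w z = (-log (1 - w / z) - ∑ i ∈ Finset.range 1, (w / z) ^ i / i +
      w / z * (1 - w / z)⁻¹) / z ^ 2 := by
    unfold kk hh ell ell'
    have h3 : 1 - w / z = (z - w) / z := by field_simp
    have h4 : (1 - w / z)⁻¹ = z / (z - w) := by rw [h3, inv_div]
    rw [h4]
    simp only [Finset.range_one, Finset.sum_singleton, pow_zero, Nat.cast_zero, div_zero, sub_zero]
    field_simp
    ring
  rw [e1]
  refine s4.congr_fun ?_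
  intro n
  unfold kt
  have hn := n1 n
  push_cast
  rw [div_pow, div_pow, pow_succ w n, pow_succ z n, pow_add z (n + 1) 2, pow_succ z n]
  field_simp
  ring

lemma kk_le {w z : ℂ} (h : 2 * ‖w‖ ≤ ‖z‖) (hz : 1 ≤ ‖z‖) : ‖kk w z‖ ≤ 4 * ‖w‖ * (‖z‖ ^ 2)⁻¹ := by
  have hz0 : 0 < ‖z‖ := by linarith
  have h1 : ‖w‖ < ‖z‖ := by
    rcases (norm_nonneg w).eq_or_lt with h2 | h2
    · rw [← h2]; exact hz0
    · linarith
  have h2 : ‖w‖ / ‖z‖ ≤ 1 / 2 := by
    rw [div_le_div_iff₀ hz0 (by norm_num)]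
    linarith
  have s1 : HasSum (fun n : ℕ => 2 * ‖w‖ * (‖z‖ ^ 2)⁻¹ * (1 / 2 : ℝ) ^ n)
      (2 * ‖w‖ * (‖z‖ ^ 2)⁻¹ * 2) := by
    have := hasSum_geometric_two
    exact this.mul_left _
  rw [← (kk_hasSum h1).tsum_eq]
  refine (tsum_of_norm_bounded s1 fun n => ?_).trans (le_of_eq (by ring))
  rw [norm_div, norm_pow]
  calc ‖kt w n‖ / ‖z‖ ^ (n + 1 + 2) ≤ 2 * ‖w‖ ^ (n + 1) / ‖z‖ ^ (n + 1 + 2) := by
        gcongr
        exact norm_kt w n
    _ = 2 * ‖w‖ * (‖z‖ ^ 2)⁻¹ * ((‖w‖ / ‖z‖) ^ n * ‖z‖⁻¹) := by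
        rw [div_pow, pow_add, pow_add, pow_add, pow_one, pow_one]
        field_simp
    _ ≤ 2 * ‖w‖ * (‖z‖ ^ 2)⁻¹ * ((1 / 2 : ℝ) ^ n * 1) := by
        gcongr
        exact inv_le_one_of_one_le₀ hz
    _ = _ := by ring

lemma et_eq (w : ℂ) (y : ℝ) (n : ℕ) :
    kt w n * ((y : ℂ) ^ (n + 1 + 1) / ((n + 1 + 1).factorial : ℂ)) = y * et n (w * y) := by
  unfold kt et
  have hn := n1 n
  have hf : ((n + 1).factorial : ℂ) ≠ 0 := by exact_mod_cast (n + 1).factorial_ne_zero
  have hn2 : (n : ℂ) + 2 ≠ 0 := by exact_mod_cast (by omega : n + 2 ≠ 0)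
  have hfac : ((n + 1 + 1).factorial : ℂ) = (n + 2) * ((n + 1).factorial : ℂ) := by
    rw [Nat.factorial_succ (n + 1)]
    push_cast
    ring
  rw [hfac, mul_pow, pow_succ (y : ℂ) (n + 1)]
  field_simp

/-- **the inverse transform** -/
theorem V_kk {w : ℂ} {x y : ℝ} (hx : ‖w‖ < x) (hy : 0 < y) :
    V x (fun z => exp (z * y) * kk w z) = y * ei (w * y) := by
  have hx0 : 0 < x := (norm_nonneg w).trans_lt hx
  have hre : ∀ t : ℝ, ((x : ℂ) + t * I).re = x := fun t => by simp
  have him : ∀ t : ℝ, ((x : ℂ) + t * I).im = t := fun t => by simp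
  have hn : ∀ t : ℝ, x ≤ ‖(x : ℂ) + t * I‖ := fun t => by
    have := re_le_norm ((x : ℂ) + t * I)
    rwa [hre] at this
  have hdec := decay_int (p := 2) (by norm_num)
  set T : ℕ → ℝ → ℂ := fun n t => kt w n * (exp (((x : ℂ) + t * I) * y) /
    ((x : ℂ) + t * I) ^ (n + 1 + 2)) with hT
  have hTi : ∀ n, Integrable (T n) := fun n => (exp_pow_int hx0 hy.le (n + 1)).const_mul _
  set K : ℝ := Real.exp (x * y) * (1 + 1 / x) ^ (2 : ℝ) with hK
  have hb : ∀ n t, ‖T n t‖ ≤ (2 * (‖w‖ / x) ^ (n + 1)) * (K * (1 + |t|) ^ (-(2 : ℝ))) := by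
    intro n t
    rw [hT]
    simp only
    rw [norm_mul]
    have e1 := exp_pow_strip (z := (x : ℂ) + t * I) hx0 hy.le (n + 1) (hre t).ge (hre t).le
    rw [him] at e1
    calc _ ≤ (2 * ‖w‖ ^ (n + 1)) * ((Real.exp (x * y) / x ^ (n + 1) * (1 + 1 / x) ^ (2 : ℝ)) *
          (1 + |t|) ^ (-(2 : ℝ))) := mul_le_mul (norm_kt w n) e1 (norm_nonneg _) (by positivity)
      _ = _ := by
        rw [hK, div_pow]
        field_simp
  have hgeo : Summable fun n : ℕ => 2 * (‖w‖ / x) ^ (n + 1) := by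
    refine Summable.mul_left 2 ((summable_nat_add_iff 1).2 (summable_geometric_of_lt_one
      (by positivity) ?_))
    rw [div_lt_one hx0]
    exact hx
  have hSum := hasSum_integral_of_summable_integral_norm (μ := volume) hTi
    (Summable.of_nonneg_of_le (fun n => by positivity) (fun n => by
      have := integral_mono (hTi n).norm ((hdec.const_mul K).const_mul
        (2 * (‖w‖ / x) ^ (n + 1))) (hb n)
      rwa [integral_const_mul] at this) (hgeo.mul_right _))
  have hSum2 := hSum.mul_left (((2 * Real.pi)⁻¹ : ℝ) : ℂ)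
  have hTn : ∀ n, (((2 * Real.pi)⁻¹ : ℝ) : ℂ) * ∫ t, T n t = y * et n (w * y) := by
    intro n
    have e1 := V_pow (n + 1) hx0 hy
    unfold V at e1
    rw [hT]
    simp only
    rw [integral_const_mul, mul_left_comm, e1, et_eq]
  simp only [hTn] at hSum2
  have hval : ∀ t : ℝ, ∑' n, T n t = exp (((x : ℂ) + t * I) * y) * kk w (x + t * I) := by
    intro t
    rw [← (kk_hasSum (hx.trans_le (hn t))).tsum_eq, ← tsum_mul_left]
    refine tsum_congr fun n => ?_
    rw [hT]
    simp only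
    ring
  simp only [hval] at hSum2
  unfold V
  rw [← hSum2.tsum_eq, tsum_mul_left]
  rfl

/-- **the Laplace transform** -/
theorem lap_ei {w v : ℂ} (hv : ‖w‖ < v.re) :
    ∫ y in Ioi (0 : ℝ), exp (-(v * y)) * (y * ei (w * y)) = kk w v := by
  have hr : 0 < v.re := (norm_nonneg w).trans_lt hv
  have hv0 : v ≠ 0 := ne_zero' hr
  have hvn : ‖w‖ < ‖v‖ := hv.trans_le (re_le_norm v)
  -- the integrals of the powers
  have key : ∀ n : ℕ, IntegrableOn (fun y : ℝ => y ^ n * Real.exp (-(v.re * y))) (Ioi 0) ∧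
      ∫ y in Ioi (0 : ℝ), y ^ n * Real.exp (-(v.re * y)) = n.factorial * (v.re ^ (n + 1))⁻¹ := by
    intro n
    have e1 := Real.integral_rpow_mul_exp_neg_mul_Ioi (a := n + 1) (r := v.re) (by positivity) hr
    have e2 : ∫ y in Ioi (0 : ℝ), y ^ n * Real.exp (-(v.re * y)) =
        ∫ t in Ioi (0 : ℝ), t ^ (((n : ℝ) + 1) - 1) * Real.exp (-(v.re * t)) := by
      refine setIntegral_congr_fun measurableSet_Ioi fun y hy => ?_
      simp only [add_sub_cancel_right, Real.rpow_natCast]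
    rw [← e2, Real.Gamma_nat_eq_factorial] at e1
    have e3 : (1 / v.re) ^ ((n : ℝ) + 1) = (v.re ^ (n + 1))⁻¹ := by
      rw [show ((n : ℝ) + 1) = ((n + 1 : ℕ) : ℝ) by push_cast; ring, Real.rpow_natCast, one_div,
        inv_pow]
    rw [e3] at e1
    have e4 : ∫ y in Ioi (0 : ℝ), y ^ n * Real.exp (-(v.re * y)) =
        n.factorial * (v.re ^ (n + 1))⁻¹ := by
      rw [e1]
      ring
    refine ⟨?_, e4⟩
    by_contra h
    rw [integral_undef h] at e4
    have : (0 : ℝ) < n.factorial * (v.re ^ (n + 1))⁻¹ := by positivity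
    linarith
  have keyC : ∀ n : ℕ, ∫ y in Ioi (0 : ℝ), ((y : ℂ) ^ n * exp (-(v * y))) =
      n.factorial * (v ^ (n + 1))⁻¹ := by
    have hnc : ∀ (n : ℕ) (y : ℝ), 0 ≤ y → ‖(y : ℂ) ^ n * exp (-(v * y))‖ =
        y ^ n * Real.exp (-(v.re * y)) := by
      intro n y hy
      rw [norm_mul, norm_pow, Complex.norm_exp, Complex.norm_real, Real.norm_eq_abs,
        abs_of_nonneg hy, Complex.neg_re, Complex.re_mul_ofReal]
    have hiC : ∀ n : ℕ, IntegrableOn (fun y : ℝ => (y : ℂ) ^ n * exp (-(v * y))) (Ioi 0) := by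
      intro n
      refine Integrable.mono' (key n).1 (Continuous.aestronglyMeasurable (by fun_prop)) ?_
      filter_upwards [ae_restrict_mem measurableSet_Ioi] with y hy
      exact (hnc n y (le_of_lt hy)).le
    have hlim : ∀ n : ℕ, Tendsto (fun y : ℝ => (y : ℂ) ^ n * exp (-(v * y))) atTop (𝓝 0) := by
      intro n
      have e1 := (Real.tendsto_pow_mul_exp_neg_atTop_nhds_zero n).comp
        (tendsto_id.const_mul_atTop hr)
      have e2 := e1.const_mul ((v.re ^ n)⁻¹)
      rw [mul_zero] at e2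
      refine squeeze_zero_norm' ?_ e2
      filter_upwards [eventually_ge_atTop 0] with y hy
      rw [hnc n y hy]
      simp only [Function.comp_apply, id]
      rw [mul_pow]
      refine le_of_eq ?_
      field_simp
    intro n
    induction n with
    | zero =>
      have h1 : ∀ y ∈ Ici (0 : ℝ), HasDerivAt (fun y : ℝ => -(exp (-(v * y)) / v))
          ((y : ℂ) ^ 0 * exp (-(v * y))) y := by
        intro y _
        have e0 : HasDerivAt (fun x : ℝ => (x : ℂ)) 1 y := (hasDerivAt_id y).ofReal_comp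
        have e2 : HasDerivAt (fun x : ℝ => exp (-(v * x))) (exp (-(v * y)) * (-(v * 1))) y :=
          ((e0.const_mul v).fun_neg).cexp
        refine ((e2.div_const v).fun_neg).congr_deriv ?_
        field_simp
      have h2 : Tendsto (fun y : ℝ => -(exp (-(v * y)) / v)) atTop (𝓝 0) := by
        have := ((hlim 0).div_const v).neg
        simpa using this
      rw [integral_Ioi_of_hasDerivAt_of_tendsto' h1 (hiC 0) h2]
      simp
    | succ n ih =>
      have h1 : ∀ y ∈ Ici (0 : ℝ), HasDerivAt (fun y : ℝ => (y : ℂ) ^ (n + 1) * exp (-(v * y)))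
          ((n + 1) * ((y : ℂ) ^ n * exp (-(v * y))) - v * ((y : ℂ) ^ (n + 1) * exp (-(v * y)))) y := by
        intro y _
        have e0 : HasDerivAt (fun x : ℝ => (x : ℂ)) 1 y := (hasDerivAt_id y).ofReal_comp
        have e1 : HasDerivAt (fun x : ℝ => (x : ℂ) ^ (n + 1)) (((n + 1 : ℕ) : ℂ) * (y : ℂ) ^ n * 1) y :=
          e0.fun_pow (n + 1)
        have e2 : HasDerivAt (fun x : ℝ => exp (-(v * x))) (exp (-(v * y)) * (-(v * 1))) y :=
          ((e0.const_mul v).fun_neg).cexp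
        refine (e1.fun_mul e2).congr_deriv ?_
        push_cast
        ring
      have h3 := integral_Ioi_of_hasDerivAt_of_tendsto' h1
        (((hiC n).const_mul _).sub ((hiC (n + 1)).const_mul _)) (hlim (n + 1))
      rw [integral_sub ((hiC n).const_mul _) ((hiC (n + 1)).const_mul _), integral_const_mul,
        integral_const_mul, ih] at h3
      simp only [Complex.ofReal_zero, ne_eq, Nat.add_eq_zero_iff, one_ne_zero, and_false,
        not_false_eq_true, zero_pow, zero_mul, sub_zero] at h3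
      have hfac : ((n + 1).factorial : ℂ) = (n + 1) * (n.factorial : ℂ) := by
        rw [Nat.factorial_succ]
        push_cast
        ring
      rw [hfac]
      have h4 : ∫ y in Ioi (0 : ℝ), ((y : ℂ) ^ (n + 1) * exp (-(v * y))) =
          v⁻¹ * ((n + 1) * (n.factorial * (v ^ (n + 1))⁻¹)) := by
        rw [sub_eq_zero] at h3
        rw [h3]
        field_simp
      rw [h4, pow_succ v (n + 1), mul_inv]
      ring
  set T : ℕ → ℝ → ℂ := fun n y => (kt w n / ((n + 1 + 1).factorial : ℂ)) *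
    ((y : ℂ) ^ (n + 1 + 1) * exp (-(v * y))) with hT
  have hnorm : ∀ n (y : ℝ), 0 < y → ‖T n y‖ ≤ (2 * ‖w‖ ^ (n + 1) / (n + 1 + 1).factorial) *
      (y ^ (n + 1 + 1) * Real.exp (-(v.re * y))) := by
    intro n y hy
    rw [hT]
    simp only
    rw [norm_mul, norm_div, norm_mul, norm_pow, Complex.norm_exp, Complex.norm_natCast,
      Complex.norm_real, Real.norm_eq_abs, abs_of_pos hy, Complex.neg_re, Complex.re_mul_ofReal]
    have := norm_kt w n
    gcongr
  have hTi : ∀ n, Integrable (T n) (volume.restrict (Ioi 0)) := by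
    intro n
    refine Integrable.mono' (((key (n + 1 + 1)).1).const_mul
      (2 * ‖w‖ ^ (n + 1) / (n + 1 + 1).factorial))
      (Continuous.aestronglyMeasurable (by rw [hT]; fun_prop)) ?_
    filter_upwards [ae_restrict_mem measurableSet_Ioi] with y hy
    exact hnorm n y hy
  have hgeo : Summable fun n : ℕ => (2 * (‖w‖ / v.re) ^ (n + 1)) * (v.re ^ 2)⁻¹ := by
    refine Summable.mul_right _ (Summable.mul_left 2 ((summable_nat_add_iff 1).2
      (summable_geometric_of_lt_one (by positivity) ?_)))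
    rw [div_lt_one hr]
    exact hv
  have hSum := hasSum_integral_of_summable_integral_norm (μ := volume.restrict (Ioi (0 : ℝ))) hTi
    (Summable.of_nonneg_of_le (fun n => by positivity) (fun n => by
      have e1 : ∫ y in Ioi (0 : ℝ), ‖T n y‖ ≤ ∫ y in Ioi (0 : ℝ),
          (2 * ‖w‖ ^ (n + 1) / (n + 1 + 1).factorial) *
            (y ^ (n + 1 + 1) * Real.exp (-(v.re * y))) := by
        refine integral_mono_ae (hTi n).norm ((key (n + 1 + 1)).1.const_mul _) ?_
        filter_upwards [ae_restrict_mem measurableSet_Ioi] with y hy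
        exact hnorm n y hy
      rw [integral_const_mul, (key (n + 1 + 1)).2] at e1
      refine e1.trans (le_of_eq ?_)
      have hf : ((n + 1 + 1).factorial : ℝ) ≠ 0 := by exact_mod_cast (n + 1 + 1).factorial_ne_zero
      rw [div_pow, pow_succ v.re (n + 1 + 1), pow_succ v.re (n + 1)]
      field_simp) hgeo)
  have hTn : ∀ n, ∫ y in Ioi (0 : ℝ), T n y = kt w n / v ^ (n + 1 + 2) := by
    intro n
    rw [hT]
    simp only
    rw [integral_const_mul, keyC]
    have hf : ((n + 1 + 1).factorial : ℂ) ≠ 0 := by exact_mod_cast (n + 1 + 1).factorial_ne_zero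
    field_simp
  simp only [hTn] at hSum
  have h1 := hSum.unique (kk_hasSum hvn)
  rw [← h1]
  refine setIntegral_congr_fun measurableSet_Ioi fun y hy => ?_
  unfold ei
  rw [← tsum_mul_left, ← tsum_mul_left]
  refine tsum_congr fun n => ?_
  rw [← et_eq, hT]
  simp only
  ring

lemma ell_deriv {w z : ℂ} (h : ‖w‖ < ‖z‖) : HasDerivAt (ell w) (ell' w z) z := by
  obtain ⟨hz, h1, h2⟩ := small_div h
  have e1 : HasDerivAt (fun z : ℂ => 1 - w / z) (w / z ^ 2) z := by
    have := ((hasDerivAt_inv hz).const_mul w).const_sub 1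
    refine (this.congr_deriv ?_).congr_of_eventuallyEq (Eventually.of_forall fun z => ?_)
    · field_simp
    · simp only [div_eq_mul_inv]
  have e2 := (e1.clog (slit_one h1)).neg
  refine e2.congr_deriv ?_
  unfold ell'
  have h3 : 1 - w / z = (z - w) / z := by field_simp
  rw [h3]
  field_simp

lemma ell'_diff {w z : ℂ} (h : ‖w‖ < ‖z‖) : DifferentiableAt ℂ (ell' w) z := by
  obtain ⟨hz, h1, h2⟩ := small_div h
  unfold ell'
  exact ((differentiableAt_const w).div (differentiableAt_id.mul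
    (differentiableAt_id.sub_const w)) (mul_ne_zero hz h2)).neg

lemma exp_ell {w z : ℂ} (h : ‖w‖ < ‖z‖) : exp (-ell w z) = 1 - w / z := by
  obtain ⟨hz, h1, h2⟩ := small_div h
  unfold ell
  rw [neg_neg, Complex.exp_log (slitPlane_ne_zero (slit_one h1))]

end Pool.Agent.V11291.ME
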