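import Pool.Agent.V11291.ME.Log
import Pool.Agent.TH942.SL.Ext2

/-!
# Models of the singularities, and the transfer in both directions
-/

set_option autoImplicit false

open MeasureTheory Filter Topology Set Complex
open Pool.Agent.TH942.LS (Dat P P_le)
open Pool.Agent.TH942.SL

namespace Pool.Agent.V11291.ME

/-- a model: a function `Lf` with derivative `Lf'`, holomorphic near infinity, and its inverse transform -/
structure Mdl (Lf Lf' : ℂ → ℂ) (mo : ℝ → ℂ) (x₁ : ℝ) : Prop where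
  one : 1 ≤ x₁
  d : ∀ z, x₁ ≤ ‖z‖ → HasDerivAt Lf (Lf' z) z
  d' : ∀ z, x₁ ≤ ‖z‖ → DifferentiableAt ℂ Lf' z
  b : ∃ B, 0 ≤ B ∧ ∀ z, x₁ ≤ ‖z‖ → ‖hh Lf Lf' z‖ ≤ B * (‖z‖ ^ 2)⁻¹
  V : ∀ x y : ℝ, x₁ ≤ x → 0 < y → V x (fun z => exp (z * y) * hh Lf Lf' z) = y * mo y
  lap : ∀ v : ℂ, x₁ ≤ v.re → ∫ y in Ioi (0 : ℝ), exp (-(v * y)) * (y * mo y) = hh Lf Lf' v
  cont : Continuous mo
  gr : ∃ C, 0 ≤ C ∧ ∀ y : ℝ, 0 ≤ y → ‖mo y‖ ≤ C * Real.exp ((x₁ - 1) * y)

lemma hh_diff2 {f f' : ℂ → ℂ} {z : ℂ} (hz : z ≠ 0) (h1 : DifferentiableAt ℂ f z)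
    (h2 : DifferentiableAt ℂ f' z) : DifferentiableAt ℂ (hh f f') z := by
  unfold hh
  have e1 : DifferentiableAt ℂ (fun z : ℂ => z ^ 2) z := by fun_prop
  exact (h1.div e1 (pow_ne_zero 2 hz)).sub (h2.div differentiableAt_id hz)

lemma inv_sq_le {x : ℝ} (hx : 0 < x) {z : ℂ} (hz : x ≤ ‖z‖) :
    (‖z‖ ^ 2)⁻¹ ≤ (1 + 1 / x) ^ (2 : ℝ) * (1 + |z.im|) ^ (-(2 : ℝ)) := by
  have hn : 0 < ‖z‖ := hx.trans_le hz
  have e1 := nb hx (by norm_num : (0 : ℝ) ≤ 2) hz
  have e3 : ‖z‖ ^ (-(2 : ℝ)) = (‖z‖ ^ 2)⁻¹ := by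
    rw [Real.rpow_neg hn.le]
    norm_num
  rwa [e3] at e1

namespace Mdl

variable {Lf Lf' Kf Kf' : ℂ → ℂ} {mo no : ℝ → ℂ} {x₁ : ℝ}

lemma ne (M : Mdl Lf Lf' mo x₁) {z : ℂ} (hz : x₁ ≤ ‖z‖) : z ≠ 0 := by
  have := M.one
  exact norm_pos_iff.1 (by linarith)

lemma hd (M : Mdl Lf Lf' mo x₁) {z : ℂ} (hz : x₁ ≤ ‖z‖) : DifferentiableAt ℂ (hh Lf Lf') z :=
  hh_diff2 (M.ne hz) (M.d z hz).differentiableAt (M.d' z hz)

/-- integrability on the lines -/
lemma li (M : Mdl Lf Lf' mo x₁) {x y : ℝ} (hx : x₁ ≤ x) :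
    Integrable (fun t : ℝ => exp ((x + t * I) * y) * hh Lf Lf' (x + t * I)) := by
  obtain ⟨B, hB, hb⟩ := M.b
  have h1 := M.one
  have hx0 : 0 < x := by linarith
  refine line_int (H := fun z => exp (z * y) * hh Lf Lf' z) (p := 2)
    (B := Real.exp (x * y) * (B * (1 + 1 / x) ^ (2 : ℝ))) (by norm_num) (fun s hs => ?_)
    (fun s hs => ?_)
  · have h2 : x ≤ ‖s‖ := by rw [← hs]; exact re_le_norm s
    have e1 := M.hd (hx.trans h2)
    have e2 : DifferentiableAt ℂ (fun z : ℂ => exp (z * y)) s := by fun_prop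
    exact (e2.mul e1).continuousAt
  · have h2 : x ≤ ‖s‖ := by rw [← hs]; exact re_le_norm s
    rw [norm_mul, Complex.norm_exp, Complex.re_mul_ofReal, hs]
    have e1 := hb s (hx.trans h2)
    have e2 := inv_sq_le hx0 h2
    calc Real.exp (x * y) * ‖hh Lf Lf' s‖ ≤
          Real.exp (x * y) * (B * ((1 + 1 / x) ^ (2 : ℝ) * (1 + |s.im|) ^ (-(2 : ℝ)))) := by
          gcongr
          exact e1.trans (mul_le_mul_of_nonneg_left e2 hB)
      _ = _ := by ring

/-- integrability of the Laplace transform -/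
lemma pi (M : Mdl Lf Lf' mo x₁) {v : ℂ} (hv : x₁ ≤ v.re) :
    IntegrableOn (fun y : ℝ => exp (-(v * y)) * (y * mo y)) (Ioi 0) := by
  obtain ⟨C, hC, hg⟩ := M.gr
  have hc := M.cont
  have h1 : IntegrableOn (fun x : ℝ => 2 * C * Real.exp (-(1 / 2) * x)) (Ioi 0) :=
    (integrableOn_exp_mul_Ioi (a := -(1 / 2)) (by norm_num) 0).const_mul _
  refine Integrable.mono' h1 (Continuous.aestronglyMeasurable (by fun_prop)) ?_
  filter_upwards [ae_restrict_mem measurableSet_Ioi] with y hy
  have hy0 : (0 : ℝ) < y := hy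
  rw [norm_mul, norm_mul, Complex.norm_exp, Complex.norm_real, Real.norm_eq_abs, abs_of_pos hy0,
    Complex.neg_re, Complex.re_mul_ofReal]
  have e1 := hg y hy0.le
  have e2 : y ≤ 2 * Real.exp (1 / 2 * y) := by
    have := Real.add_one_le_exp (1 / 2 * y)
    linarith
  have e3 : Real.exp (-(v.re * y)) ≤ Real.exp (-(x₁ * y)) := by
    apply Real.exp_le_exp.2
    have := mul_le_mul_of_nonneg_right hv hy0.le
    linarith
  calc Real.exp (-(v.re * y)) * (y * ‖mo y‖) ≤ Real.exp (-(x₁ * y)) *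
        ((2 * Real.exp (1 / 2 * y)) * (C * Real.exp ((x₁ - 1) * y))) := by gcongr
    _ = 2 * C * (Real.exp (-(x₁ * y)) * Real.exp (1 / 2 * y) * Real.exp ((x₁ - 1) * y)) := by ring
    _ = _ := by
      rw [← Real.exp_add, ← Real.exp_add]
      congr 2
      ring

lemma hh_add (f f' g g' : ℂ → ℂ) (z : ℂ) :
    hh (fun z => f z + g z) (fun z => f' z + g' z) z = hh f f' z + hh g g' z := by
  unfold hh
  ring

lemma hh_smul (a : ℂ) (f f' : ℂ → ℂ) (z : ℂ) :
    hh (fun z => a * f z) (fun z => a * f' z) z = a * hh f f' z := by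
  unfold hh
  ring

theorem zero (h : 1 ≤ x₁) : Mdl (fun _ => 0) (fun _ => 0) (fun _ => 0) x₁ where
  one := h
  d := fun z _ => hasDerivAt_const z 0
  d' := fun z _ => differentiableAt_const _
  b := ⟨0, le_rfl, fun z _ => by simp [hh]⟩
  V := fun x y _ _ => by simp [hh, Pool.Agent.TH942.SL.V]
  lap := fun v _ => by simp [hh]
  cont := continuous_const
  gr := ⟨0, le_rfl, fun y _ => by simp⟩

theorem add (M : Mdl Lf Lf' mo x₁) (N : Mdl Kf Kf' no x₁) :
    Mdl (fun z => Lf z + Kf z) (fun z => Lf' z + Kf' z) (fun y => mo y + no y) x₁ where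
  one := M.one
  d := fun z hz => (M.d z hz).add (N.d z hz)
  d' := fun z hz => (M.d' z hz).add (N.d' z hz)
  b := by
    obtain ⟨B, hB, h1⟩ := M.b
    obtain ⟨B', hB', h2⟩ := N.b
    refine ⟨B + B', by positivity, fun z hz => ?_⟩
    rw [hh_add, add_mul]
    exact (norm_add_le _ _).trans (add_le_add (h1 z hz) (h2 z hz))
  V := fun x y hx hy => by
    have e1 := M.V x y hx hy
    have e2 := N.V x y hx hy
    unfold Pool.Agent.TH942.SL.V at e1 e2 ⊢
    simp only [hh_add, mul_add]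
    rw [integral_add (M.li hx) (N.li hx), mul_add, e1, e2]
  lap := fun v hv => by
    rw [hh_add, ← M.lap v hv, ← N.lap v hv, ← integral_add (M.pi hv) (N.pi hv)]
    refine setIntegral_congr_fun measurableSet_Ioi fun y _ => ?_
    ring
  cont := M.cont.add N.cont
  gr := by
    obtain ⟨B, hB, h1⟩ := M.gr
    obtain ⟨B', hB', h2⟩ := N.gr
    refine ⟨B + B', by positivity, fun y hy => ?_⟩
    rw [add_mul]
    exact (norm_add_le _ _).trans (add_le_add (h1 y hy) (h2 y hy))

theorem smul (M : Mdl Lf Lf' mo x₁) (a : ℂ) :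
    Mdl (fun z => a * Lf z) (fun z => a * Lf' z) (fun y => a * mo y) x₁ where
  one := M.one
  d := fun z hz => (M.d z hz).const_mul a
  d' := fun z hz => (M.d' z hz).const_mul a
  b := by
    obtain ⟨B, hB, h1⟩ := M.b
    refine ⟨‖a‖ * B, by positivity, fun z hz => ?_⟩
    rw [hh_smul, norm_mul, mul_assoc]
    exact mul_le_mul_of_nonneg_left (h1 z hz) (norm_nonneg _)
  V := fun x y hx hy => by
    have e1 := M.V x y hx hy
    have e2 : (fun z => exp (z * y) * hh (fun z => a * Lf z) (fun z => a * Lf' z) z) =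
        fun z => a * (exp (z * y) * hh Lf Lf' z) := by
      funext z
      rw [hh_smul]
      ring
    rw [e2, V_mul, e1]
    ring
  lap := fun v hv => by
    rw [hh_smul, ← M.lap v hv, ← integral_const_mul]
    refine setIntegral_congr_fun measurableSet_Ioi fun y _ => ?_
    ring
  cont := continuous_const.mul M.cont
  gr := by
    obtain ⟨B, hB, h1⟩ := M.gr
    refine ⟨‖a‖ * B, by positivity, fun y hy => ?_⟩
    rw [norm_mul, mul_assoc]
    exact mul_le_mul_of_nonneg_left (h1 y hy) (norm_nonneg _)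

end Mdl

/-- the logarithmic model -/
theorem mdl_ell {w : ℂ} {x₁ : ℝ} (h : 2 * ‖w‖ + 1 ≤ x₁) :
    Mdl (ell w) (ell' w) (fun y => ei (w * y)) x₁ := by
  have hw := norm_nonneg w
  have hlt : ∀ z : ℂ, x₁ ≤ ‖z‖ → ‖w‖ < ‖z‖ := fun z hz => by linarith
  exact
  { one := by linarith
    d := fun z hz => ell_deriv (hlt z hz)
    d' := fun z hz => ell'_diff (hlt z hz)
    b := ⟨4 * ‖w‖, by positivity, fun z hz => kk_le (by linarith) (by linarith)⟩
    V := fun x y hx hy => V_kk (by linarith) hy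
    lap := fun v hv => lap_ei (by linarith)
    cont := ei_cont.comp (by fun_prop)
    gr := ⟨1, zero_le_one, fun y hy => by
      refine (norm_ei _).trans ?_
      rw [one_mul, norm_mul, Complex.norm_real, Real.norm_eq_abs, abs_of_nonneg hy]
      apply Real.exp_le_exp.2
      have : ‖w‖ ≤ x₁ - 1 := by linarith
      exact mul_le_mul_of_nonneg_right this hy⟩ }

/-- the model of a divisor -/
theorem mdl_sum (Z : Finset ℂ) (m : ℂ → ℂ) (w : ℂ → ℂ) {x₁ : ℝ} (h1 : 1 ≤ x₁)
    (h : ∀ β ∈ Z, 2 * ‖w β‖ + 1 ≤ x₁) :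
    Mdl (fun z => ∑ β ∈ Z, m β * ell (w β) z) (fun z => ∑ β ∈ Z, m β * ell' (w β) z)
      (fun y => ∑ β ∈ Z, m β * ei (w β * y)) x₁ := by
  classical
  induction Z using Finset.induction_on with
  | empty => simpa using Mdl.zero h1
  | insert β Z hβ ih =>
    simp only [Finset.sum_insert hβ]
    exact ((mdl_ell (h β (Finset.mem_insert_self _ _))).smul (m β)).add
      (ih fun β' hβ' => h β' (Finset.mem_insert_of_mem hβ'))

/-- **the extension of a Laplace transform** -/
theorem lap_ext {g : ℝ → ℂ} (hgc : Continuous g) {F F' : ℂ → ℂ} {x₀ : ℝ} (hx00 : 0 < x₀)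
    (hF : ∀ v : ℂ, x₀ < v.re → HasDerivAt F (F' v) v)
    (hL : ∀ v : ℂ, x₀ < v.re → ∫ y in Ioi (0 : ℝ), exp (-(v * y)) * g y = hh F F' v)
    (hs : ∀ ε : ℝ, 0 < ε → ∃ C, 0 ≤ C ∧ ∀ y : ℝ, 0 < y → ‖g y‖ ≤ C * Real.exp (ε * y)) :
    ∃ fh : ℂ → ℂ, (∀ v : ℂ, 0 < v.re → DifferentiableAt ℂ fh v) ∧
      ∀ v : ℂ, x₀ < v.re → fh v = F v := by
  set U : Set ℂ := {v | 0 < v.re} with hU
  have hUo : IsOpen U := isOpen_lt continuous_const Complex.continuous_re
  have hUc : Convex ℝ U := convex_halfSpace_re_gt 0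
  set W : Set ℂ := {v | x₀ < v.re} with hW
  have hWo : IsOpen W := isOpen_lt continuous_const Complex.continuous_re
  have hWc : Convex ℝ W := convex_halfSpace_re_gt x₀
  have hWU : W ⊆ U := fun v hv => lt_trans hx00 hv
  have hUpos : ∀ v ∈ U, 0 < v.re := fun v hv => hv
  set G : ℂ → ℂ := fun v => ∫ y in Ioi (0 : ℝ), exp (-(v * y)) * g y with hG
  have hGd : DifferentiableOn ℂ G U := by
    intro t ht
    have ht' : 0 < t.re := ht
    set ε : ℝ := t.re / 3 with hε
    have hε0 : 0 < ε := by rw [hε]; linarith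
    obtain ⟨C', hC'0, hbd⟩ := hs ε hε0
    set O : Set ℂ := {v | 2 * ε < v.re} with hO
    have hOo : IsOpen O := isOpen_lt continuous_const Complex.continuous_re
    have hexp : Integrable (fun T : ℝ => C' * Real.exp (-(ε * T))) (volume.restrict (Ioi 0)) := by
      have := integrableOn_exp_mul_Ioi (a := -ε) (by linarith) 0
      refine Integrable.const_mul ?_ _
      refine this.congr_fun (fun T _ => ?_) measurableSet_Ioi
      simp only
      congr 1
      ring
    have h2 := Pool.Agent.HP.differentiableOn_integral (volume.restrict (Ioi (0 : ℝ)))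
      (fun (y : ℝ) (v : ℂ) => if 0 < y then exp (-(v * y)) * g y else 0) O hOo
      (fun v _ => ?_) (fun y => ?_) (fun y => if 0 < y then C' * Real.exp (-(ε * y)) else 0) ?_
      (fun y v hv => ?_)
    · have h3 : (fun v : ℂ => ∫ y in Ioi (0 : ℝ),
          (if 0 < y then exp (-(v * y)) * g y else 0)) = G := by
        funext v
        rw [hG]
        refine setIntegral_congr_fun measurableSet_Ioi fun y hy => ?_
        rw [if_pos (show 0 < y from hy)]
      rw [h3] at h2
      exact (h2.differentiableAt (hOo.mem_nhds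
        (show 2 * ε < t.re by rw [hε]; linarith))).differentiableWithinAt
    · have h3 : AEStronglyMeasurable (fun y : ℝ => exp (-(v * y)) * g y)
          (volume.restrict (Ioi 0)) := Continuous.aestronglyMeasurable (by fun_prop)
      refine h3.congr ?_
      filter_upwards [ae_restrict_mem measurableSet_Ioi] with y hy
      rw [if_pos (show 0 < y from hy)]
    · by_cases hy : 0 < y
      · simp only [hy, if_true]
        exact Differentiable.differentiableOn (by fun_prop)
      · simp only [hy, if_false]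
        exact differentiableOn_const _
    · refine hexp.congr ?_
      filter_upwards [ae_restrict_mem measurableSet_Ioi] with y hy
      rw [if_pos (show 0 < y from hy)]
    · split_ifs with hy
      · have hv' : 2 * ε < v.re := hv
        rw [norm_mul, Complex.norm_exp]
        have e1 : (-(v * (y : ℂ))).re = -(v.re * y) := by
          rw [Complex.neg_re, Complex.re_mul_ofReal]
        rw [e1]
        calc Real.exp (-(v.re * y)) * ‖g y‖ ≤
              Real.exp (-((2 * ε) * y)) * (C' * Real.exp (ε * y)) := by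
              refine mul_le_mul (Real.exp_le_exp.2 ?_) (hbd y hy) (norm_nonneg _) (Real.exp_pos _).le
              nlinarith
          _ = C' * (Real.exp (-((2 * ε) * y)) * Real.exp (ε * y)) := by ring
          _ = _ := by
            rw [← Real.exp_add]
            congr 2
            ring
      · simp
  obtain ⟨GG, hGG⟩ := convex_primitive hUo hUc hGd
  set w₀ : ℂ := ((x₀ + 1 : ℝ) : ℂ) with hw₀
  have hw₀W : w₀ ∈ W := by
    change x₀ < w₀.re
    rw [hw₀, Complex.ofReal_re]
    linarith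
  set k : ℂ := F w₀ / w₀ + GG w₀ with hk
  have hconst : ∀ v ∈ W, F v / v + GG v = k := by
    have hd : ∀ v ∈ W, HasDerivAt (fun v => F v / v + GG v) 0 v := by
      intro v hv
      have e1 : v ≠ 0 := ne_zero' (hUpos v (hWU hv))
      have e4 := (hF v hv).div (hasDerivAt_id v) e1
      refine (e4.add (hGG v (hWU hv))).congr_deriv ?_
      have e5 : G v = hh F F' v := hL v hv
      rw [e5]
      simp only [hh, id]
      field_simp
      ring
    intro v hv
    refine hWc.is_const_of_fderivWithin_eq_zero (𝕜 := ℂ)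
      (fun z hz => (hd z hz).differentiableAt.differentiableWithinAt) (fun z hz => ?_) hv hw₀W
    rw [fderivWithin_of_isOpen hWo hz]
    ext
    simp [(hd z hz).deriv]
  refine ⟨fun v => v * (k - GG v), fun v hv => ?_, fun v hv => ?_⟩
  · exact differentiableAt_id.mul ((differentiableAt_const k).sub (hGG v hv).differentiableAt)
  · have e1 : v ≠ 0 := ne_zero' (hUpos v (hWU hv))
    simp only
    rw [← hconst v hv]
    field_simp
    ring

end Pool.Agent.V11291.ME
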