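import Pool.Agent.V11291.ME.Model

/-!
# Means with an expansion, and continuations with prescribed singularities
-/

set_option autoImplicit false

open MeasureTheory Filter Topology Set Complex
open Pool.Agent.TH942.LS (Dat P P_le)
open Pool.Agent.TH942.SL

namespace Pool.Agent.V11291.ME

variable {α : ℝ} {lam c : ℕ → ℝ} {δ σ : ℝ} {Lf Lf' : ℂ → ℂ} {mo : ℝ → ℂ} {x₁ : ℝ}

lemma hh_sub (f f' g g' : ℂ → ℂ) (z : ℂ) :
    hh (fun z => f z - g z) (fun z => f' z - g' z) z = hh f f' z - hh g g' z := by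
  unfold hh
  ring

/-- **expansion of the means ⟹ continuation** -/
theorem ext' (D : Dat lam c δ σ) (h0 : 0 < α) (h1 : α < 1) (Md : Mdl Lf Lf' mo x₁)
    (hM : ∀ ε : ℝ, 0 < ε → ∃ C y₀ : ℝ, ∀ y, y₀ ≤ y →
      ‖(M lam c α y : ℂ) - mo y‖ ≤ C * Real.exp (ε * y)) :
    ∃ (fh : ℂ → ℂ) (x₂ : ℝ), (∀ v : ℂ, 0 < v.re → DifferentiableAt ℂ fh v) ∧
      ∀ v : ℂ, x₂ < v.re → fh v = f₀ lam c α v - Lf v := by
  obtain ⟨x₃, hx13, hx₃⟩ := exists_abscissa h0 h1 σ
  set x₀ : ℝ := max x₃ x₁ with hx₀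
  have hx1 : 1 ≤ x₀ := hx13.trans (le_max_left _ _)
  have hxx : x₁ ≤ x₀ := le_max_right _ _
  have hx₀' : ∀ z : ℂ, 0 < z.re → x₀ ≤ ‖z‖ → σ + 1 ≤ kap α * ‖z‖ ^ α := fun z hz hz2 =>
    hx₃ z hz ((le_max_left _ _).trans hz2)
  obtain ⟨g, K, hK, hgc, hneg, hgpos, hgb, hinv⟩ := lines D h0 h1 hx1 hx₀'
  have hx00 : 0 < x₀ := by linarith
  have hmc := Md.cont
  obtain ⟨B, hB, hgr⟩ := Md.gr
  -- the difference
  set g' : ℝ → ℂ := fun y => g y - y * mo y with hg'
  have hgc' : Continuous g' := by rw [hg']; fun_prop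
  have hWx : ∀ v : ℂ, x₀ < v.re → 0 < v.re ∧ σ + 1 ≤ kap α * ‖v‖ ^ α ∧ σ < (v ^ (α : ℂ)).re ∧
      x₁ ≤ ‖v‖ := by
    intro v hv
    have e1 : 0 < v.re := by linarith
    have e2 : x₀ ≤ ‖v‖ := hv.le.trans (re_le_norm v)
    have e3 := hx₀' v e1 e2
    have e4 := re_pow_ge h0 h1 e1
    exact ⟨e1, e3, by linarith, hxx.trans e2⟩
  have hGW : ∀ v : ℂ, x₀ < v.re → ∫ y in Ioi (0 : ℝ), exp (-(v * y)) * g' y =
      hh (fun z => f₀ lam c α z - Lf z) (fun z => f₁ lam c α z - Lf' z) v := by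
    intro v hv
    have e1 := hinv v.re hv v.im
    rw [Complex.re_add_im] at e1
    have e3 : ∫ y in Ioi (0 : ℝ), exp (-(v * y)) * g y = hh (f₀ lam c α) (f₁ lam c α) v := by
      rw [← e1, ← integral_indicator measurableSet_Ioi]
      refine integral_congr_ae ?_
      have e2 : ∀ᵐ y : ℝ, y ≠ 0 := by
        rw [ae_iff]
        simp
      filter_upwards [e2] with y hy
      by_cases hy2 : y ∈ Ioi (0 : ℝ)
      · rw [indicator_of_mem hy2]
      · rw [indicator_of_notMem hy2]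
        have : y < 0 := lt_of_le_of_ne (not_lt.1 hy2) hy
        rw [hneg y this, mul_zero]
    have hi : IntegrableOn (fun y : ℝ => exp (-(v * y)) * g y) (Ioi 0) := by
      have h2 : IntegrableOn (fun y : ℝ => K * Real.exp (-(v.re - x₀) * y)) (Ioi 0) :=
        (integrableOn_exp_mul_Ioi (a := -(v.re - x₀)) (by linarith) 0).const_mul _
      refine Integrable.mono' h2 (Continuous.aestronglyMeasurable (by fun_prop)) ?_
      refine ae_of_all _ fun y => ?_
      rw [norm_mul, Complex.norm_exp, Complex.neg_re, Complex.re_mul_ofReal]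
      calc Real.exp (-(v.re * y)) * ‖g y‖ ≤ Real.exp (-(v.re * y)) * (K * Real.exp (x₀ * y)) :=
            mul_le_mul_of_nonneg_left (hgb y) (Real.exp_pos _).le
        _ = K * (Real.exp (-(v.re * y)) * Real.exp (x₀ * y)) := by ring
        _ = _ := by
          rw [← Real.exp_add]
          congr 2
          ring
    rw [hh_sub, ← e3, ← Md.lap v (hxx.trans hv.le), ← integral_sub hi (Md.pi (hxx.trans hv.le))]
    refine setIntegral_congr_fun measurableSet_Ioi fun y _ => ?_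
    simp only [hg']
    ring
  obtain ⟨fh, e1, e2⟩ := lap_ext hgc' hx00 (F := fun z => f₀ lam c α z - Lf z)
    (F' := fun z => f₁ lam c α z - Lf' z) (fun v hv => by
      obtain ⟨a1, a2, a3, a4⟩ := hWx v hv
      exact (f₀_deriv D a1 a3).sub (Md.d v a4)) hGW (fun ε hε => by
      obtain ⟨C, y₀, hC⟩ := hM (ε / 2) (by linarith)
      obtain ⟨Q, hQ⟩ := (isCompact_Icc (a := (0 : ℝ)) (b := |y₀|)).exists_bound_of_continuousOn
        hgc'.continuousOn
      refine ⟨|Q| + |C| / (ε / 2), by positivity, fun y hy => ?_⟩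
      have e0 : 1 ≤ Real.exp (ε * y) := Real.one_le_exp (by positivity)
      rcases le_total |y₀| y with h | h
      · have a1 : g' y = y * ((M lam c α y : ℂ) - mo y) := by
          rw [hg']
          simp only
          rw [hgpos y hy]
          push_cast
          ring
        rw [a1, norm_mul, Complex.norm_real, Real.norm_eq_abs, abs_of_pos hy]
        have e1 := hC y ((le_abs_self y₀).trans h)
        have e2 : y ≤ Real.exp (ε / 2 * y) / (ε / 2) := by
          rw [le_div_iff₀ (by linarith)]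
          have := Real.add_one_le_exp (ε / 2 * y)
          linarith
        have e3 : C * Real.exp (ε / 2 * y) ≤ |C| * Real.exp (ε / 2 * y) :=
          mul_le_mul_of_nonneg_right (le_abs_self C) (Real.exp_pos _).le
        calc y * ‖(M lam c α y : ℂ) - mo y‖ ≤ (Real.exp (ε / 2 * y) / (ε / 2)) *
              (|C| * Real.exp (ε / 2 * y)) :=
              mul_le_mul e2 (e1.trans e3) (norm_nonneg _) (by positivity)
          _ = |C| / (ε / 2) * (Real.exp (ε / 2 * y) * Real.exp (ε / 2 * y)) := by ring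
          _ = |C| / (ε / 2) * Real.exp (ε * y) := by
            rw [← Real.exp_add]
            congr 2
            ring
          _ ≤ _ := by
            refine mul_le_mul_of_nonneg_right ?_ (Real.exp_pos _).le
            have := abs_nonneg Q
            linarith
      · have a1 := (hQ y ⟨hy.le, h⟩).trans (le_abs_self Q)
        have a2 : 0 ≤ |C| / (ε / 2) := by positivity
        have a3 := abs_nonneg Q
        nlinarith)
  exact ⟨fh, x₀, e1, e2⟩

/-- **continuation ⟹ expansion of the means** -/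
theorem up_gen' (D : Dat lam c δ σ) (h0 : 0 < α) (h1 : α < 1) (Md : Mdl Lf Lf' mo x₁)
    {f f' : ℂ → ℂ} (hf : ∀ v : ℂ, 0 < v.re → HasDerivAt f (f' v) v)
    (hf' : ∀ v : ℂ, 0 < v.re → DifferentiableAt ℂ f' v) {x₂ : ℝ}
    (hff : ∀ v : ℂ, 0 < v.re → x₂ ≤ ‖v‖ → f v = f₀ lam c α v - Lf v ∧
      f' v = f₁ lam c α v - Lf' v)
    {c₀ : ℝ} (hc : 0 < c₀) :
    ∃ C : ℝ, ∀ y : ℝ, 1 ≤ y → ‖(M lam c α y : ℂ) - mo y‖ ≤ C * Real.exp (c₀ * y) := by
  obtain ⟨x₃, hx13, hx₃⟩ := exists_abscissa h0 h1 σ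
  set x₀ : ℝ := max (max x₃ c₀) (max x₂ x₁) with hx0
  have hx1 : 1 ≤ x₀ := hx13.trans ((le_max_left _ _).trans (le_max_left _ _))
  have hc0x : c₀ ≤ x₀ := (le_max_right _ _).trans (le_max_left _ _)
  have hx2 : x₂ ≤ x₀ := (le_max_left _ _).trans (le_max_right _ _)
  have hxx : x₁ ≤ x₀ := (le_max_right _ _).trans (le_max_right _ _)
  have hx₀ : ∀ z : ℂ, 0 < z.re → x₀ ≤ ‖z‖ → σ + 1 ≤ kap α * ‖z‖ ^ α := fun z hz hz2 =>
    hx₃ z hz (((le_max_left _ _).trans (le_max_left _ _)).trans hz2)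
  have hx00 : 0 < x₀ := by linarith
  obtain ⟨BL, hBL, hbL⟩ := Md.b
  have hS := S₀_nonneg lam c σ
  have hδ := D.δ0
  set p : ℝ := 2 - α with hp
  have hp1 : 1 < p := by rw [hp]; linarith
  have hp0 : 0 ≤ p := by linarith
  set h : ℂ → ℂ := hh f f' with hh'
  have hhd : ∀ z : ℂ, 0 < z.re → DifferentiableAt ℂ h z := fun z hz =>
    hh_diff hz (hf z hz).differentiableAt (hf' z hz)
  have hfar : ∀ z : ℂ, 0 < z.re → x₀ ≤ ‖z‖ → h z = hh (f₀ lam c α) (f₁ lam c α) z - hh Lf Lf' z := by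
    intro z hz h2
    obtain ⟨e1, e2⟩ := hff z hz (hx2.trans h2)
    rw [hh', ← hh_sub]
    unfold hh
    rw [e1, e2]
  -- the compact part
  set K : Set ℂ := {v : ℂ | c₀ ≤ v.re ∧ ‖v‖ ≤ x₀} with hK
  have hKc : IsCompact K := by
    have hcl : IsClosed K := by
      have e1 : IsClosed {v : ℂ | c₀ ≤ v.re} := isClosed_le continuous_const Complex.continuous_re
      have e3 : IsClosed {v : ℂ | ‖v‖ ≤ x₀} := isClosed_le continuous_norm continuous_const
      exact e1.inter e3
    refine (isCompact_closedBall (0 : ℂ) x₀).of_isClosed_subset hcl ?_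
    rintro v ⟨-, h⟩
    rwa [Metric.mem_closedBall, dist_zero_right]
  obtain ⟨C₁, hC₁⟩ := hKc.exists_bound_of_continuousOn (f := h) fun v hv =>
    (hhd v (lt_of_lt_of_le hc hv.1)).continuousAt.continuousWithinAt
  set B₀ : ℝ := S₀ lam c σ + α * (2 / δ * S₀ lam c σ) + BL with hB₀
  have hB₀0 : 0 ≤ B₀ := by positivity
  set B : ℝ := B₀ * (1 + 1 / x₀) ^ p + |C₁| * (1 + x₀) ^ p with hB
  have hB0 : 0 ≤ B := by positivity
  have hhb : ∀ z : ℂ, c₀ ≤ z.re → ‖h z‖ ≤ B * (1 + |z.im|) ^ (-p) := by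
    intro z hz
    have hz0 : 0 < z.re := hc.trans_le hz
    have ht : 0 < 1 + |z.im| := by positivity
    rcases le_total x₀ ‖z‖ with h2 | h2
    · have e3 := hx₀ z hz0 h2
      have e4 := hfar z hz0 h2
      have e5 := hh_bound D h0 h1 hz0 (by linarith) e3
      have e6 := nb hx00 hp0 h2
      have e7 := hbL z (hxx.trans h2)
      have hzn : 1 ≤ ‖z‖ := hx1.trans h2
      have e8 : (‖z‖ ^ 2)⁻¹ ≤ ‖z‖ ^ (-p) := by
        have e9 : (‖z‖ ^ 2)⁻¹ = ‖z‖ ^ (-(2 : ℝ)) := by
          rw [Real.rpow_neg (by linarith)]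
          norm_num
        rw [e9]
        exact Real.rpow_le_rpow_of_exponent_le hzn (by linarith)
      rw [e4]
      calc _ ≤ (S₀ lam c σ + α * (2 / δ * S₀ lam c σ)) * ‖z‖ ^ (-p) + BL * ‖z‖ ^ (-p) := by
            refine (norm_sub_le _ _).trans (add_le_add e5 (e7.trans ?_))
            exact mul_le_mul_of_nonneg_left e8 hBL
        _ = B₀ * ‖z‖ ^ (-p) := by rw [hB₀]; ring
        _ ≤ B₀ * ((1 + 1 / x₀) ^ p * (1 + |z.im|) ^ (-p)) := by gcongr
        _ = (B₀ * (1 + 1 / x₀) ^ p) * (1 + |z.im|) ^ (-p) := by ring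
        _ ≤ _ := by
          refine mul_le_mul_of_nonneg_right ?_ (by positivity)
          have : 0 ≤ |C₁| * (1 + x₀) ^ p := by positivity
          linarith
    · have e6 : 1 ≤ (1 + x₀) ^ p * (1 + |z.im|) ^ (-p) := by
        have e7 : 1 + |z.im| ≤ 1 + x₀ := by
          have := abs_im_le_norm z
          linarith
        rw [Real.rpow_neg ht.le, ← div_eq_mul_inv, le_div_iff₀ (by positivity), one_mul]
        exact Real.rpow_le_rpow ht.le e7 hp0
      have e7 := (hC₁ z ⟨hz, h2⟩).trans (le_abs_self _)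
      calc ‖h z‖ ≤ |C₁| * 1 := by linarith
        _ ≤ |C₁| * ((1 + x₀) ^ p * (1 + |z.im|) ^ (-p)) := by gcongr
        _ = (|C₁| * (1 + x₀) ^ p) * (1 + |z.im|) ^ (-p) := by ring
        _ ≤ _ := by
          refine mul_le_mul_of_nonneg_right ?_ (by positivity)
          have : 0 ≤ B₀ * (1 + 1 / x₀) ^ p := by positivity
          linarith
  set Ip : ℝ := ∫ t : ℝ, (1 + |t|) ^ (-p) with hIp
  have hIp0 : 0 ≤ Ip := integral_nonneg fun t => by positivity
  refine ⟨(2 * Real.pi)⁻¹ * (B * Ip), fun y hy => ?_⟩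
  have hy0 : 0 < y := by linarith
  have hre : ∀ x t : ℝ, ((x : ℂ) + t * I).re = x := fun x t => by simp
  have him : ∀ x t : ℝ, ((x : ℂ) + t * I).im = t := fun x t => by simp
  have a1 : y * ((M lam c α y : ℂ) - mo y) = V x₀ (fun z => exp (z * y) * h z) := by
    have b1 := yM_eq D h0 h1 hx1 hy0 hx₀
    have b2 := Md.V x₀ y hxx hy0
    have i1 := Md.li (y := y) hxx
    have i2 : Integrable (fun t : ℝ => exp ((x₀ + t * I) * y) * h (x₀ + t * I)) := by
      refine line_int (H := fun z => exp (z * y) * h z) (p := p)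
        (B := Real.exp (x₀ * y) * B) hp1 (fun s hs => ?_) (fun s hs => ?_)
      · have e2 : DifferentiableAt ℂ (fun z : ℂ => exp (z * y)) s := by fun_prop
        exact (e2.mul (hhd s (by rw [hs]; exact hx00))).continuousAt
      · rw [norm_mul, Complex.norm_exp, Complex.re_mul_ofReal, hs, mul_assoc]
        exact mul_le_mul_of_nonneg_left (hhb s (by rw [hs]; exact hc0x)) (Real.exp_pos _).le
    have b3 : V x₀ (fun z => exp (z * y) * hh (f₀ lam c α) (f₁ lam c α) z) =
        V x₀ (fun z => exp (z * y) * h z) + V x₀ (fun z => exp (z * y) * hh Lf Lf' z) := by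
      unfold V
      rw [← mul_add, ← integral_add i2 i1]
      congr 2
      funext t
      have e2 : x₀ ≤ ‖(x₀ : ℂ) + t * I‖ := by
        have := re_le_norm ((x₀ : ℂ) + t * I)
        rwa [hre] at this
      have e3 : 0 < ((x₀ : ℂ) + t * I).re := by rw [hre]; linarith
      rw [hfar _ e3 e2]
      ring
    rw [mul_sub, ← b2]
    have b4 : (y : ℂ) * (M lam c α y : ℂ) = ((y * M lam c α y : ℝ) : ℂ) := by push_cast; ring
    rw [b4, b1, b3]
    ring
  have a2 : V x₀ (fun z => exp (z * y) * h z) = V c₀ (fun z => exp (z * y) * h z) := by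
    refine (shift hp1 hc0x (B := Real.exp (x₀ * y) * B) (fun s hs _ => ?_)
      fun s hs hs2 => ?_).symm
    · exact DifferentiableAt.mul (by fun_prop) (hhd s (lt_of_lt_of_le hc hs))
    · rw [norm_mul, Complex.norm_exp, Complex.re_mul_ofReal, mul_assoc]
      refine mul_le_mul (Real.exp_le_exp.2 ?_) (hhb s hs) (norm_nonneg _) (Real.exp_pos _).le
      exact mul_le_mul_of_nonneg_right hs2 hy0.le
  have a3 := norm_V_le (H := fun z => exp (z * y) * h z) (c := c₀)
    (g := fun t => (Real.exp (c₀ * y) * B) * (1 + |t|) ^ (-p)) ((decay_int hp1).const_mul _)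
    fun t => by
      have e1 := hhb (c₀ + t * I) (by rw [hre])
      rw [him] at e1
      rw [norm_mul, Complex.norm_exp, Complex.re_mul_ofReal, hre, mul_assoc]
      exact mul_le_mul_of_nonneg_left e1 (Real.exp_pos _).le
  rw [← a2, ← a1, norm_mul, Complex.norm_real, Real.norm_eq_abs, abs_of_pos hy0,
    integral_const_mul] at a3
  have a4 : ‖(M lam c α y : ℂ) - mo y‖ ≤ y * ‖(M lam c α y : ℂ) - mo y‖ :=
    le_mul_of_one_le_left (norm_nonneg _) hy
  refine (a4.trans a3).trans (le_of_eq ?_)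
  rw [hIp]
  ring

end Pool.Agent.V11291.ME
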